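import Pool.Agent.Helper58.VW.Body

/-!
# Bodies of laws and exchangeability ((2.1), (2.2) of ns_notes_16d)

`D` a random vector of `R^b` (finite law `w`), `κ0 > 0` a cut off.

* `Nn w D κ κ0` : the covectors `ν` with `P(|ν.D| > 1) <= κ` and `|ν_j| κ0 <= 1`;
* `BB w D κ κ0` : the body `{v : |ν.v| <= 1 for all these ν}` (a function of the law only);
* `BB_large` : `P(D ∉ 2 b BB) <= b κ`;
* `exch` : for `K` independent samples let `Q` be the parallelepiped of a maximal determinant `b`-subfamily of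
  `{D^1, .., D^K} ∪ {κ0 e_j}`; then `E P(D ∉ Q) <= b / (K + 1)`;
* `BB_subset` : `P(D ∉ Q) <= κ` implies `BB ⊆ Q`.
-/

set_option autoImplicit false

namespace Pool.Agent.Helper58.VW

open Finset Pool.Agent.Helper46.WF Matrix

variable {Ω : Type} [Fintype Ω] {b : ℕ}

/-- `x` is a combination of the rows of `M` with coefficients in `[-1, 1]` -/
def InBox (M : Matrix (Fin b) (Fin b) ℝ) (x : Fin b → ℝ) : Prop :=
  ∃ t : Fin b → ℝ, (∀ i, |t i| ≤ 1) ∧ x = ∑ i, t i • M i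

/-- Cramer -/
theorem inBox_of_det (M : Matrix (Fin b) (Fin b) ℝ) (hM : M.det ≠ 0) (x : Fin b → ℝ)
    (h : ∀ i, |(M.updateRow i x).det| ≤ |M.det|) : InBox M x := by
  have hu : IsUnit M.det := isUnit_iff_ne_zero.mpr hM
  set t : Fin b → ℝ := x ᵥ* M⁻¹ with ht
  have htM : t ᵥ* M = x := by
    rw [ht, Matrix.vecMul_vecMul, Matrix.nonsing_inv_mul _ hu, Matrix.vecMul_one]
  have hx : x = ∑ i, t i • M i := by
    rw [← htM]
    ext j
    rw [Finset.sum_apply]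
    rfl
  refine ⟨t, ?_, hx⟩
  intro i
  have h1 := h i
  rw [hx, Matrix.det_updateRow_sum, smul_eq_mul, abs_mul] at h1
  have h3 : 0 < |M.det| := abs_pos.mpr hM
  exact le_of_mul_le_mul_right (by rw [one_mul]; exact h1) h3

theorem inBox_iff (M : Matrix (Fin b) (Fin b) ℝ) (hM : M.det ≠ 0) (x : Fin b → ℝ) :
    InBox M x ↔ ∀ i, |(x ᵥ* M⁻¹) i| ≤ 1 := by
  have hu : IsUnit M.det := isUnit_iff_ne_zero.mpr hM
  constructor
  · rintro ⟨t, ht, rfl⟩ i
    have h1 : (∑ i, t i • M i) = t ᵥ* M := by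
      ext j
      rw [Finset.sum_apply]
      rfl
    rw [h1, Matrix.vecMul_vecMul, Matrix.mul_nonsing_inv _ hu, Matrix.vecMul_one]
    exact ht i
  · intro h
    refine ⟨x ᵥ* M⁻¹, h, ?_⟩
    have htM : (x ᵥ* M⁻¹) ᵥ* M = x := by
      rw [Matrix.vecMul_vecMul, Matrix.nonsing_inv_mul _ hu, Matrix.vecMul_one]
    conv_lhs => rw [← htM]
    ext j
    rw [Finset.sum_apply]
    rfl

/-! ### families of samples -/

/-- the samples and the cut off vectors -/
def mem (D : Ω → Fin b → ℝ) (κ0 : ℝ) {K : ℕ} (x : Fin K → Ω) : Fin K ⊕ Fin b → Fin b → ℝ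
  | Sum.inl k => D (x k)
  | Sum.inr j => Pi.single j κ0

/-- the matrix of a subfamily -/
def fr (D : Ω → Fin b → ℝ) (κ0 : ℝ) {K : ℕ} (x : Fin K → Ω) (q : Fin b → Fin K ⊕ Fin b) :
    Matrix (Fin b) (Fin b) ℝ := Matrix.of (fun i => mem D κ0 x (q i))

/-- maximal determinant subfamilies -/
def MaxFr (D : Ω → Fin b → ℝ) (κ0 : ℝ) {K : ℕ} (x : Fin K → Ω) (q : Fin b → Fin K ⊕ Fin b) : Prop :=
  ∀ q', |(fr D κ0 x q').det| ≤ |(fr D κ0 x q).det|

theorem exists_maxFr (D : Ω → Fin b → ℝ) (κ0 : ℝ) {K : ℕ} (x : Fin K → Ω) :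
    ∃ q, MaxFr D κ0 x q := by
  obtain ⟨q, -, hq⟩ := Finset.exists_max_image (univ : Finset (Fin b → Fin K ⊕ Fin b))
    (fun q => |(fr D κ0 x q).det|) ⟨fun i => Sum.inr i, Finset.mem_univ _⟩
  exact ⟨q, fun q' => hq q' (Finset.mem_univ _)⟩

theorem MaxFr.det_ne {D : Ω → Fin b → ℝ} {κ0 : ℝ} (h0 : κ0 ≠ 0) {K : ℕ} {x : Fin K → Ω}
    {q : Fin b → Fin K ⊕ Fin b} (h : MaxFr D κ0 x q) : (fr D κ0 x q).det ≠ 0 := by
  intro hc
  have h1 := h (fun i => Sum.inr i)
  rw [hc, abs_zero] at h1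
  have h2 : fr D κ0 x (fun i => Sum.inr i) = Matrix.diagonal (fun _ => κ0) := by
    ext i j
    show (Pi.single i κ0 : Fin b → ℝ) j = _
    by_cases hij : i = j
    · subst hij
      simp
    · rw [Matrix.diagonal_apply_ne _ hij, Pi.single_eq_of_ne (Ne.symm hij)]
  rw [h2, Matrix.det_diagonal, Finset.prod_const, abs_pow] at h1
  have h3 : 0 < |κ0| ^ (univ : Finset (Fin b)).card := pow_pos (abs_pos.mpr h0) _
  linarith

/-- the members are in the box -/
theorem MaxFr.inBox {D : Ω → Fin b → ℝ} {κ0 : ℝ} (h0 : κ0 ≠ 0) {K : ℕ} {x : Fin K → Ω}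
    {q : Fin b → Fin K ⊕ Fin b} (h : MaxFr D κ0 x q) (a : Fin K ⊕ Fin b) :
    InBox (fr D κ0 x q) (mem D κ0 x a) := by
  classical
  refine inBox_of_det _ (h.det_ne h0) _ ?_
  intro i
  have h1 : (fr D κ0 x q).updateRow i (mem D κ0 x a) = fr D κ0 x (Function.update q i a) := by
    ext k j
    by_cases hk : k = i
    · subst hk
      rw [Matrix.updateRow_self]
      show _ = mem D κ0 x (Function.update q k a k) j
      rw [Function.update_self]
    · rw [Matrix.updateRow_ne hk]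
      show mem D κ0 x (q k) j = mem D κ0 x (Function.update q i a k) j
      rw [Function.update_of_ne hk]
  rw [h1]
  exact h _

/-- some maximal box misses the new vector -/
def BadX (D : Ω → Fin b → ℝ) (κ0 : ℝ) {K : ℕ} (x : Fin K → Ω) (ω : Ω) : Prop :=
  ∃ q, MaxFr D κ0 x q ∧ ¬ InBox (fr D κ0 x q) (D ω)

open Classical in
/-- among `K + 1` vectors at most `b` are bad for the others -/
theorem card_bad (D : Ω → Fin b → ℝ) (κ0 : ℝ) (h0 : κ0 ≠ 0) {K : ℕ} (y : Fin (K + 1) → Ω) :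
    (univ.filter (fun i : Fin (K + 1) => BadX D κ0 (fun k => y (i.succAbove k)) (y i))).card ≤ b := by
  obtain ⟨qs, hqs⟩ := exists_maxFr D κ0 y
  have hsub : univ.filter (fun i : Fin (K + 1) => BadX D κ0 (fun k => y (i.succAbove k)) (y i)) ⊆
      univ.filter (fun i : Fin (K + 1) => ∃ a : Fin b, qs a = Sum.inl i) := by
    intro i hi
    rw [mem_filter] at hi ⊢
    refine ⟨Finset.mem_univ _, ?_⟩
    by_contra hcon
    push Not at hcon
    obtain ⟨q, hq, hbox⟩ := hi.2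
    apply hbox
    -- embed the smaller family
    set emb : Fin K ⊕ Fin b → Fin (K + 1) ⊕ Fin b := fun a => match a with
      | Sum.inl k => Sum.inl (i.succAbove k)
      | Sum.inr j => Sum.inr j with hemb
    have hmem : ∀ a, mem D κ0 y (emb a) = mem D κ0 (fun k => y (i.succAbove k)) a := by
      intro a
      rcases a with k | j <;> rfl
    have hfr : ∀ q' : Fin b → Fin K ⊕ Fin b, fr D κ0 y (fun a => emb (q' a)) =
        fr D κ0 (fun k => y (i.succAbove k)) q' := by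
      intro q'
      ext a j
      show mem D κ0 y (emb (q' a)) j = mem D κ0 (fun k => y (i.succAbove k)) (q' a) j
      rw [hmem]
    have hpre : ∀ a, ∃ c, emb c = qs a := by
      intro a
      rcases hqa : qs a with k | j
      · have hk : k ≠ i := by
          intro h
          exact hcon a (by rw [hqa, h])
        obtain ⟨k', hk'⟩ := Fin.exists_succAbove_eq hk
        exact ⟨Sum.inl k', by rw [hemb]; simp [hk']⟩
      · exact ⟨Sum.inr j, rfl⟩
    choose q1 hq1 using hpre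
    have hle : |(fr D κ0 y qs).det| ≤ |(fr D κ0 (fun k => y (i.succAbove k)) q).det| := by
      have h1 := hq q1
      rw [← hfr q1] at h1
      have h2 : (fun a => emb (q1 a)) = qs := funext hq1
      rw [h2] at h1
      exact h1
    refine inBox_of_det _ (hq.det_ne h0) _ ?_
    intro a
    refine le_trans ?_ hle
    have h1 : (fr D κ0 (fun k => y (i.succAbove k)) q).updateRow a (D (y i)) =
        fr D κ0 y (Function.update (fun c => emb (q c)) a (Sum.inl i)) := by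
      rw [← hfr q]
      ext k j
      by_cases hk : k = a
      · subst hk
        rw [Matrix.updateRow_self]
        show _ = mem D κ0 y (Function.update (fun c => emb (q c)) k (Sum.inl i) k) j
        rw [Function.update_self]
        rfl
      · rw [Matrix.updateRow_ne hk]
        show mem D κ0 y (emb (q k)) j = mem D κ0 y (Function.update (fun c => emb (q c)) a (Sum.inl i) k) j
        rw [Function.update_of_ne hk]
    rw [h1]
    exact hqs _
  refine le_trans (Finset.card_le_card hsub) ?_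
  have h2 : univ.filter (fun i : Fin (K + 1) => ∃ a : Fin b, qs a = Sum.inl i) ⊆
      (univ : Finset (Fin b)).image (fun a => match qs a with
        | Sum.inl k => k
        | Sum.inr _ => 0) := by
    intro i hi
    rw [mem_filter] at hi
    obtain ⟨a, ha⟩ := hi.2
    rw [mem_image]
    exact ⟨a, Finset.mem_univ _, by rw [ha]⟩
  refine le_trans (Finset.card_le_card h2) (le_trans Finset.card_image_le ?_)
  rw [card_univ, Fintype.card_fin]

/-- the law of a tuple -/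
def wK (w : Ω → ℝ) (K : ℕ) : (Fin K → Ω) → ℝ := fun x => ∏ k, w (x k)

theorem wK_nonneg {w : Ω → ℝ} (hw : ∀ ω, 0 ≤ w ω) (K : ℕ) (x : Fin K → Ω) : 0 ≤ wK w K x :=
  Finset.prod_nonneg fun _ _ => hw _

theorem sum_wK {w : Ω → ℝ} (hm : ∑ ω, w ω = 1) (K : ℕ) : ∑ x, wK w K x = 1 := by
  classical
  have h := Finset.prod_univ_sum (fun _ : Fin K => (univ : Finset Ω)) (fun _ ω => w ω)
  simp only [hm, Finset.prod_const_one] at h
  unfold wK
  rw [h]
  simp [Fintype.piFinset_univ]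

theorem sum_insert {w : Ω → ℝ} {K : ℕ} (G : (Fin K → Ω) → Ω → ℝ) (i : Fin (K + 1)) :
    ∑ y : Fin (K + 1) → Ω, wK w (K + 1) y * G (fun k => y (i.succAbove k)) (y i)
      = ∑ x : Fin K → Ω, wK w K x * ∑ ω, w ω * G x ω := by
  classical
  rw [← (Fin.insertNthEquiv (fun _ => Ω) i).sum_comp, ← Finset.univ_product_univ,
    Finset.sum_product_right]
  refine Finset.sum_congr rfl fun x _ => ?_
  rw [Finset.mul_sum]
  refine Finset.sum_congr rfl fun ω _ => ?_
  have h1 : (Fin.insertNthEquiv (fun _ => Ω) i) (ω, x) i = ω := by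
    simp [Fin.insertNthEquiv]
  have h2 : (fun k => (Fin.insertNthEquiv (fun _ => Ω) i) (ω, x) (i.succAbove k)) = x := by
    funext k
    simp [Fin.insertNthEquiv]
  rw [h1, h2]
  unfold wK
  rw [Fin.prod_univ_succAbove _ i, h1]
  have h3 : ∀ k, (Fin.insertNthEquiv (fun _ => Ω) i) (ω, x) (i.succAbove k) = x k := fun k =>
    congrFun h2 k
  simp only [h3]
  ring

/-- **EXCHANGEABILITY**: the box of a maximal determinant subfamily of `K` samples misses a fresh sample with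
probability at most `b / (K + 1)` -/
theorem exch (w : Ω → ℝ) (hw : ∀ ω, 0 ≤ w ω) (hm : ∑ ω, w ω = 1) (D : Ω → Fin b → ℝ) (κ0 : ℝ)
    (h0 : κ0 ≠ 0) (K : ℕ) :
    ∑ x : Fin K → Ω, wK w K x * Pw w (BadX D κ0 x) ≤ b / (K + 1) := by
  classical
  set G : (Fin K → Ω) → Ω → ℝ := fun x ω => if BadX D κ0 x ω then 1 else 0 with hG
  have h1 : ∀ x : Fin K → Ω, Pw w (BadX D κ0 x) = ∑ ω, w ω * G x ω := by
    intro x
    unfold Pw
    refine Finset.sum_congr rfl fun ω _ => ?_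
    rw [hG]
    by_cases h : BadX D κ0 x ω <;> simp [h]
  have h2 : ∀ i : Fin (K + 1), ∑ x : Fin K → Ω, wK w K x * Pw w (BadX D κ0 x) =
      ∑ y : Fin (K + 1) → Ω, wK w (K + 1) y * G (fun k => y (i.succAbove k)) (y i) := by
    intro i
    rw [sum_insert G i]
    exact Finset.sum_congr rfl fun x _ => by rw [h1]
  have h3 : ((K : ℝ) + 1) * ∑ x : Fin K → Ω, wK w K x * Pw w (BadX D κ0 x) ≤ b := by
    have e1 : ((K : ℝ) + 1) * ∑ x : Fin K → Ω, wK w K x * Pw w (BadX D κ0 x)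
        = ∑ i : Fin (K + 1), ∑ y : Fin (K + 1) → Ω, wK w (K + 1) y *
          G (fun k => y (i.succAbove k)) (y i) := by
      rw [← Finset.sum_congr rfl (fun i _ => h2 i), Finset.sum_const, card_univ, Fintype.card_fin,
        nsmul_eq_mul]
      push_cast
      ring
    rw [e1, Finset.sum_comm]
    have e2 : ∀ y : Fin (K + 1) → Ω, ∑ i : Fin (K + 1), wK w (K + 1) y *
        G (fun k => y (i.succAbove k)) (y i) ≤ wK w (K + 1) y * b := by
      intro y
      rw [← Finset.mul_sum]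
      refine mul_le_mul_of_nonneg_left ?_ (wK_nonneg hw _ _)
      have e3 := card_bad D κ0 h0 y
      have e4 : ∑ i : Fin (K + 1), G (fun k => y (i.succAbove k)) (y i) =
          ((univ.filter (fun i : Fin (K + 1) => BadX D κ0 (fun k => y (i.succAbove k)) (y i))).card : ℝ) := by
        rw [hG, Finset.card_filter]
        push_cast
        rfl
      rw [e4]
      exact_mod_cast e3
    refine le_trans (Finset.sum_le_sum fun y _ => e2 y) ?_
    rw [← Finset.sum_mul, sum_wK hm, one_mul]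
  rw [le_div_iff₀ (by positivity)]
  linarith

/-- with probability at least `1 - b / ((K + 1) κ)` the maximal boxes of the samples miss a fresh sample with
probability at most `κ` -/
theorem exch' (w : Ω → ℝ) (hw : ∀ ω, 0 ≤ w ω) (hm : ∑ ω, w ω = 1) (D : Ω → Fin b → ℝ) (κ0 : ℝ)
    (h0 : κ0 ≠ 0) (K : ℕ) (κ : ℝ) (hκ : 0 < κ) :
    Pw (wK w K) (fun x => κ < Pw w (BadX D κ0 x)) ≤ b / (K + 1) / κ :=
  Pw_markov (wK w K) (wK_nonneg hw K) (fun x => Pw w (BadX D κ0 x)) (fun x _ => Pw_nonneg w hw _) hκ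
    (exch w hw hm D κ0 h0 K)

/-! ### the body -/

/-- the normalised covectors -/
def Nn (w : Ω → ℝ) (D : Ω → Fin b → ℝ) (κ κ0 : ℝ) : Set (Fin b → ℝ) :=
  {ν | Pw w (fun ω => 1 < |ν ⬝ᵥ D ω|) ≤ κ ∧ ∀ j, |ν j| * κ0 ≤ 1}

/-- the body of the law -/
def BB (w : Ω → ℝ) (D : Ω → Fin b → ℝ) (κ κ0 : ℝ) : Set (Fin b → ℝ) :=
  {v | ∀ ν ∈ Nn w D κ κ0, |ν ⬝ᵥ v| ≤ 1}

/-- a box which is rarely missed contains the body -/
theorem BB_subset (w : Ω → ℝ) (hw : ∀ ω, 0 ≤ w ω) (D : Ω → Fin b → ℝ) (κ κ0 : ℝ) (hκ0 : 0 < κ0)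
    (M : Matrix (Fin b) (Fin b) ℝ) (hM : M.det ≠ 0) (hc : ∀ j, InBox M (Pi.single j κ0))
    (hP : Pw w (fun ω => ¬ InBox M (D ω)) ≤ κ) (v : Fin b → ℝ) (hv : v ∈ BB w D κ κ0) : InBox M v := by
  rw [inBox_iff M hM]
  intro i
  have hdot : ∀ x : Fin b → ℝ, (x ᵥ* M⁻¹) i = (fun j => M⁻¹ j i) ⬝ᵥ x := by
    intro x
    rw [dotProduct_comm]
    rfl
  rw [hdot]
  refine hv _ ⟨?_, ?_⟩
  · refine le_trans (Pw_mono w hw ?_) hP
    intro ω _ h1 h2
    rw [inBox_iff M hM] at h2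
    have h3 := h2 i
    rw [hdot] at h3
    linarith
  · intro j
    have h1 := (inBox_iff M hM _).mp (hc j) i
    rw [hdot] at h1
    have h2 : (fun j => M⁻¹ j i) ⬝ᵥ (Pi.single j κ0 : Fin b → ℝ) = M⁻¹ j i * κ0 := by
      rw [dotProduct_single]
    rw [h2, abs_mul, abs_of_pos hκ0] at h1
    exact h1

/-- `BB ⊆` the box of the samples, with high probability over the samples -/
theorem BB_subset_samples (w : Ω → ℝ) (hw : ∀ ω, 0 ≤ w ω) (hm : ∑ ω, w ω = 1) (D : Ω → Fin b → ℝ)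
    (κ κ0 : ℝ) (hκ : 0 < κ) (hκ0 : 0 < κ0) (K : ℕ) :
    Pw (wK w K) (fun x => ¬ ∀ q, MaxFr D κ0 x q →
      Pw w (fun ω => ¬ InBox (fr D κ0 x q) (D ω)) ≤ κ ∧ ∀ v ∈ BB w D κ κ0, InBox (fr D κ0 x q) v)
        ≤ b / (K + 1) / κ := by
  refine le_trans (Pw_mono _ (wK_nonneg hw K) ?_) (exch' w hw hm D κ0 hκ0.ne' K κ hκ)
  intro x _ hx
  by_contra hcon
  push Not at hcon
  apply hx
  intro q hq
  have h1 : Pw w (fun ω => ¬ InBox (fr D κ0 x q) (D ω)) ≤ κ :=
    le_trans (Pw_mono w hw fun ω _ h => ⟨q, hq, h⟩) hcon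
  exact ⟨h1, fun v hv => BB_subset w hw D κ κ0 hκ0 _ (hq.det_ne hκ0.ne')
    (fun j => hq.inBox hκ0.ne' (Sum.inr j)) h1 v hv⟩

/-! ### the body is large -/

theorem single_mem_Nn (w : Ω → ℝ) (D : Ω → Fin b → ℝ) (κ κ0 : ℝ) (hκ : 0 ≤ κ)
    (hκ1 : κ0 ≤ 1) (h0 : 0 ≤ κ0) (hD : ∀ ω, w ω ≠ 0 → ∀ i, |D ω i| ≤ 1) (i : Fin b) :
    (Pi.single i 1 : Fin b → ℝ) ∈ Nn w D κ κ0 := by
  classical
  refine ⟨?_, ?_⟩
  · have h1 : Pw w (fun ω => 1 < |(Pi.single i 1 : Fin b → ℝ) ⬝ᵥ D ω|) = 0 := by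
      unfold Pw
      refine Finset.sum_eq_zero fun ω _ => ?_
      by_cases h : w ω = 0
      · simp [h]
      · rw [if_neg]
        show ¬ (1 < |(Pi.single i 1 : Fin b → ℝ) ⬝ᵥ D ω|)
        rw [single_dotProduct, one_mul, not_lt]
        exact hD ω h i
    rw [h1]
    exact hκ
  · intro j
    by_cases hj : j = i
    · subst hj
      rw [Pi.single_eq_same, abs_one, one_mul]
      exact hκ1
    · rw [Pi.single_eq_of_ne hj, abs_zero, zero_mul]
      norm_num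

/-- `P(D ∉ 2 b BB) <= b κ` -/
theorem BB_large (w : Ω → ℝ) (hw : ∀ ω, 0 ≤ w ω) (D : Ω → Fin b → ℝ) (κ κ0 : ℝ)
    (hκ : 0 ≤ κ) (hκ0 : 0 < κ0) (hκ1 : κ0 ≤ 1) (hD : ∀ ω, w ω ≠ 0 → ∀ i, |D ω i| ≤ 1) :
    Pw w (fun ω => ¬ ∀ ν ∈ Nn w D κ κ0, |ν ⬝ᵥ D ω| ≤ 2 * b) ≤ b * κ := by
  classical
  -- a nearly maximal determinant family of covectors
  set S : Set ℝ := (fun m : Matrix (Fin b) (Fin b) ℝ => |m.det|) '' {m | ∀ i, m i ∈ Nn w D κ κ0} with hS
  have hne : S.Nonempty := by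
    refine ⟨_, (1 : Matrix (Fin b) (Fin b) ℝ), ?_, rfl⟩
    intro i
    have h1 : (1 : Matrix (Fin b) (Fin b) ℝ) i = Pi.single i 1 := by
      ext j
      rw [Matrix.one_apply]
      by_cases hij : i = j
      · subst hij
        simp
      · rw [if_neg hij, Pi.single_eq_of_ne (Ne.symm hij)]
    rw [h1]
    exact single_mem_Nn w D κ κ0 hκ hκ1 hκ0.le hD i
  have hbdd : BddAbove S := by
    refine ⟨(b.factorial : ℝ) * (1 / κ0) ^ b, ?_⟩
    rintro _ ⟨m, hm, rfl⟩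
    have h1 : ∀ i j, |m i j| ≤ 1 / κ0 := by
      intro i j
      rw [le_div_iff₀ hκ0]
      exact (hm i).2 j
    have h2 := Matrix.det_le (A := m) (abv := AbsoluteValue.abs) (x := 1 / κ0) (fun i j => h1 i j)
    simpa using h2
  have h1S : 1 ≤ sSup S := by
    refine le_csSup hbdd ⟨(1 : Matrix (Fin b) (Fin b) ℝ), ?_, by simp⟩
    intro i
    have h1 : (1 : Matrix (Fin b) (Fin b) ℝ) i = Pi.single i 1 := by
      ext j
      rw [Matrix.one_apply]
      by_cases hij : i = j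
      · subst hij
        simp
      · rw [if_neg hij, Pi.single_eq_of_ne (Ne.symm hij)]
    rw [h1]
    exact single_mem_Nn w D κ κ0 hκ hκ1 hκ0.le hD i
  obtain ⟨_, ⟨m, hmN, rfl⟩, hlt⟩ := exists_lt_of_lt_csSup hne (show sSup S / 2 < sSup S by linarith)
  simp only at hlt
  have hmdet : m.det ≠ 0 := by
    intro h
    rw [h, abs_zero] at hlt
    linarith
  have hcoef : ∀ ν ∈ Nn w D κ κ0, ∃ t : Fin b → ℝ, (∀ i, |t i| ≤ 2) ∧ ν = ∑ i, t i • m i := by
    intro ν hν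
    have hu : IsUnit m.det := isUnit_iff_ne_zero.mpr hmdet
    set t : Fin b → ℝ := ν ᵥ* m⁻¹ with ht
    have htM : t ᵥ* m = ν := by
      rw [ht, Matrix.vecMul_vecMul, Matrix.nonsing_inv_mul _ hu, Matrix.vecMul_one]
    have hx : ν = ∑ i, t i • m i := by
      rw [← htM]
      ext j
      rw [Finset.sum_apply]
      rfl
    refine ⟨t, ?_, hx⟩
    intro i
    have h1 : |(m.updateRow i ν).det| ≤ sSup S := by
      refine le_csSup hbdd ⟨m.updateRow i ν, ?_, rfl⟩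
      intro k
      by_cases hk : k = i
      · subst hk
        rw [Matrix.updateRow_self]
        exact hν
      · rw [Matrix.updateRow_ne hk]
        exact hmN k
    rw [hx, Matrix.det_updateRow_sum, smul_eq_mul, abs_mul] at h1
    have h3 : 0 < |m.det| := abs_pos.mpr hmdet
    have h4 : |t i| * |m.det| ≤ 2 * |m.det| := by linarith
    exact le_of_mul_le_mul_right h4 h3
  have hsub : Pw w (fun ω => ¬ ∀ ν ∈ Nn w D κ κ0, |ν ⬝ᵥ D ω| ≤ 2 * b) ≤
      Pw w (fun ω => ∃ i ∈ (univ : Finset (Fin b)), 1 < |m i ⬝ᵥ D ω|) := by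
    refine Pw_mono w hw ?_
    intro ω _ hω
    by_contra hcon
    push Not at hcon
    apply hω
    intro ν hν
    obtain ⟨t, ht, hx⟩ := hcoef ν hν
    have h1 : ν ⬝ᵥ D ω = ∑ i, t i * (m i ⬝ᵥ D ω) := by
      rw [hx, sum_dotProduct]
      exact Finset.sum_congr rfl fun i _ => by rw [smul_dotProduct, smul_eq_mul]
    rw [h1]
    refine le_trans (Finset.abs_sum_le_sum_abs _ _) ?_
    have h2 : ∀ i ∈ (univ : Finset (Fin b)), |t i * (m i ⬝ᵥ D ω)| ≤ 2 := by
      intro i hi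
      rw [abs_mul]
      have e1 := ht i
      have e2 := hcon i hi
      calc |t i| * |m i ⬝ᵥ D ω| ≤ 2 * 1 := mul_le_mul e1 e2 (abs_nonneg _) (by norm_num)
        _ = 2 := by norm_num
    refine le_trans (Finset.sum_le_sum h2) ?_
    rw [Finset.sum_const, card_univ, Fintype.card_fin, nsmul_eq_mul]
    linarith
  refine le_trans hsub ?_
  have hun : ∀ s : Finset (Fin b), Pw w (fun ω => ∃ i ∈ s, 1 < |m i ⬝ᵥ D ω|) ≤
      ∑ i ∈ s, Pw w (fun ω => 1 < |m i ⬝ᵥ D ω|) := by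
    intro s
    induction s using Finset.induction_on with
    | empty => simp [Pw]
    | insert a s ha ih =>
      rw [Finset.sum_insert ha]
      refine le_trans (Pw_mono w hw ?_) (le_trans (Pw_or w hw
        (fun ω => 1 < |m a ⬝ᵥ D ω|) (fun ω => ∃ i ∈ s, 1 < |m i ⬝ᵥ D ω|)) (by linarith))
      rintro ω _ ⟨i, hi, hx⟩
      rcases Finset.mem_insert.mp hi with rfl | hi
      · exact Or.inl hx
      · exact Or.inr ⟨i, hi, hx⟩
  refine le_trans (hun _) ?_
  refine le_trans (Finset.sum_le_sum fun i _ => (hmN i).1) ?_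
  rw [Finset.sum_const, card_univ, Fintype.card_fin, nsmul_eq_mul]

/-! ### the norm of the body -/

/-- the seminorm `sup |ν.v|` over the normalised covectors -/
noncomputable def pB (w : Ω → ℝ) (D : Ω → Fin b → ℝ) (κ κ0 : ℝ) : (Fin b → ℝ) → ℝ :=
  fun v => ⨆ ν : Nn w D κ κ0, |ν.1 ⬝ᵥ v|

theorem pB_bdd (w : Ω → ℝ) (D : Ω → Fin b → ℝ) (κ κ0 : ℝ) (hκ0 : 0 < κ0) (v : Fin b → ℝ) :
    BddAbove (Set.range (fun ν : Nn w D κ κ0 => |ν.1 ⬝ᵥ v|)) := by
  refine ⟨∑ j, (1 / κ0) * |v j|, ?_⟩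
  rintro _ ⟨⟨ν, hν⟩, rfl⟩
  show |∑ j, ν j * v j| ≤ _
  refine le_trans (Finset.abs_sum_le_sum_abs _ _) (Finset.sum_le_sum fun j _ => ?_)
  rw [abs_mul]
  refine mul_le_mul_of_nonneg_right ?_ (abs_nonneg _)
  rw [le_div_iff₀ hκ0]
  exact hν.2 j

/-- `pB` as a seminorm -/
noncomputable def pBs (w : Ω → ℝ) (D : Ω → Fin b → ℝ) (κ κ0 : ℝ) (hκ0 : 0 < κ0)
    (hne : (Nn w D κ κ0).Nonempty) : Seminorm ℝ (Fin b → ℝ) :=
  haveI : Nonempty (Nn w D κ κ0) := hne.to_subtype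
  Seminorm.of (pB w D κ κ0)
    (by
      intro x y
      refine ciSup_le fun ν => ?_
      rw [dotProduct_add]
      exact le_trans (abs_add_le _ _) (add_le_add (le_ciSup (pB_bdd w D κ κ0 hκ0 x) ν)
        (le_ciSup (pB_bdd w D κ κ0 hκ0 y) ν)))
    (by
      intro a x
      unfold pB
      rw [Real.norm_eq_abs, Real.mul_iSup_of_nonneg (abs_nonneg a)]
      refine iSup_congr fun ν => ?_
      rw [dotProduct_smul, smul_eq_mul, abs_mul])

theorem pBs_le_iff (w : Ω → ℝ) (D : Ω → Fin b → ℝ) (κ κ0 : ℝ) (hκ0 : 0 < κ0)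
    (hne : (Nn w D κ κ0).Nonempty) (v : Fin b → ℝ) (r : ℝ) :
    pBs w D κ κ0 hκ0 hne v ≤ r ↔ ∀ ν ∈ Nn w D κ κ0, |ν ⬝ᵥ v| ≤ r := by
  have hn : Nonempty (Nn w D κ κ0) := hne.to_subtype
  constructor
  · intro h ν hν
    exact le_trans (le_ciSup (pB_bdd w D κ κ0 hκ0 v) ⟨ν, hν⟩) h
  · intro h
    exact ciSup_le fun ν => h ν.1 ν.2

/-- `BB` is the unit ball -/
theorem mem_BB_iff (w : Ω → ℝ) (D : Ω → Fin b → ℝ) (κ κ0 : ℝ) (hκ0 : 0 < κ0)
    (hne : (Nn w D κ κ0).Nonempty) (v : Fin b → ℝ) :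
    v ∈ BB w D κ κ0 ↔ pBs w D κ κ0 hκ0 hne v ≤ 1 :=
  (pBs_le_iff w D κ κ0 hκ0 hne v 1).symm

end Pool.Agent.Helper58.VW
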