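import Pool.Agent.Helper46.WF.Ent
import Pool.Agent.Helper96.RK.E2
import Pool.Agent.Helper61.GL.Trf

/-!
# Windows of a real variable

* `mass_of_ent` : if the entropy of a variable with `N` values is at least `log N - 1/(8 N)` then every value
  has probability between `1/(2N)` and `2/N`;
* `sum_win` : if `T` in `[0,1)` has `H([T]_n) >= n - A` then, summed over the levels `l <= n - ρ`, the
  probabilities that the window of `ρ` digits after the cell of level `l` is not uniform up to a factor `2`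
  are at most `8 * 2^ρ * ρ * (A + ρ)`.
-/

set_option autoImplicit false

namespace Pool.Agent.Helper58.VW

open Finset Pool.Agent.Helper69.RK Pool.Agent.Helper61.GL Pool.Agent.Helper46.WF

variable {Ω α γ : Type} [Fintype Ω]

/-! ### one law -/

/-- `x ln x - x + 1` -/
noncomputable def phi (x : ℝ) : ℝ := x * Real.log x - x + 1

theorem phi_nonneg {x : ℝ} (hx : 0 ≤ x) : 0 ≤ phi x := by
  unfold phi
  rcases hx.eq_or_lt with rfl | hx
  · simp
  · have h1 := Real.one_sub_inv_le_log_of_pos hx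
    have h2 : x * (1 - x⁻¹) ≤ x * Real.log x := mul_le_mul_of_nonneg_left h1 hx.le
    have h3 : x * (1 - x⁻¹) = x - 1 := by field_simp
    linarith

theorem phi_small {x : ℝ} (hx : 0 ≤ x) (h : x < 1 / 2) : 1 / 8 < phi x := by
  unfold phi
  have hl := Real.log_two_lt_d9
  rcases hx.eq_or_lt with rfl | hx
  · simp
    norm_num
  · have h1 := Real.one_sub_inv_le_log_of_pos (show 0 < 2 * x by linarith)
    have h2 : x * (1 - (2 * x)⁻¹) ≤ x * Real.log (2 * x) := mul_le_mul_of_nonneg_left h1 hx.le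
    have h3 : x * (1 - (2 * x)⁻¹) = x - 1 / 2 := by field_simp
    rw [Real.log_mul (by norm_num) hx.ne'] at h2
    have h4 : 0 < Real.log 2 := Real.log_pos (by norm_num)
    nlinarith

theorem phi_large {x : ℝ} (h : 2 < x) : 1 / 8 < phi x := by
  unfold phi
  have hl := Real.log_two_gt_d9
  have hx : 0 < x := by linarith
  have h1 := Real.one_sub_inv_le_log_of_pos (show 0 < x / 2 by linarith)
  have h2 : x * (1 - (x / 2)⁻¹) ≤ x * Real.log (x / 2) := mul_le_mul_of_nonneg_left h1 hx.le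
  have h3 : x * (1 - (x / 2)⁻¹) = x - 2 := by field_simp
  rw [Real.log_div hx.ne' (by norm_num)] at h2
  nlinarith

theorem pr_eq_Pw (w : Ω → ℝ) (f : Ω → α) (ω : Ω) : pr w f ω = Pw w (fun ω' => f ω' = f ω) := by
  classical
  rw [e1_pr_eq]
  unfold Pw
  exact Finset.sum_congr rfl fun ω' _ => by by_cases h : f ω' = f ω <;> simp [h]

/-- the entropy as a sum over the values -/
theorem Hh_sum (w : Ω → ℝ) (hm : ∑ ω, w ω = 1) (f : Ω → α) (S : Finset α)
    (hS : ∀ ω, w ω ≠ 0 → f ω ∈ S) :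
    Hh w f = - ∑ c ∈ S, Pw w (fun ω => f ω = c) * Real.logb 2 (Pw w (fun ω => f ω = c)) := by
  classical
  rw [Hh_eq w hm]
  congr 1
  have h1 : ∀ ω, w ω * Real.logb 2 (pr w f ω) =
      ∑ c ∈ S, (if f ω = c then w ω * Real.logb 2 (Pw w (fun ω' => f ω' = c)) else 0) := by
    intro ω
    by_cases h0 : w ω = 0
    · simp [h0]
    · rw [Finset.sum_ite_eq S (f ω) (fun c => w ω * Real.logb 2 (Pw w (fun ω' => f ω' = c))),
        if_pos (hS ω h0), pr_eq_Pw]
  simp only [h1]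
  rw [Finset.sum_comm]
  refine Finset.sum_congr rfl fun c _ => ?_
  have h2 : Pw w (fun ω => f ω = c) = ∑ ω, if f ω = c then w ω else 0 := by
    unfold Pw
    exact Finset.sum_congr rfl fun ω' _ => by by_cases h : f ω' = c <;> simp [h]
  conv_rhs => rw [h2]
  rw [Finset.sum_mul]
  refine Finset.sum_congr rfl fun ω _ => ?_
  rw [← h2]
  by_cases h : f ω = c <;> simp [h]

theorem sum_Pw_values (w : Ω → ℝ) (f : Ω → α) (S : Finset α) (hS : ∀ ω, w ω ≠ 0 → f ω ∈ S) :
    ∑ c ∈ S, Pw w (fun ω => f ω = c) = ∑ ω, w ω := by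
  classical
  unfold Pw
  rw [Finset.sum_comm]
  refine Finset.sum_congr rfl fun ω _ => ?_
  by_cases h0 : w ω = 0
  · simp [h0]
  · have : ∑ c ∈ S, (if f ω = c then w ω else 0) = w ω := by
      rw [Finset.sum_ite_eq S (f ω) (fun _ => w ω), if_pos (hS ω h0)]
    refine Eq.trans ?_ this
    exact Finset.sum_congr rfl fun c _ => by by_cases h : f ω = c <;> simp [h]

/-- **nearly maximal entropy, nearly uniform law** -/
theorem mass_of_ent (w : Ω → ℝ) (hw : ∀ ω, 0 ≤ w ω) (hm : ∑ ω, w ω = 1) (f : Ω → α) (S : Finset α)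
    (hS : ∀ ω, w ω ≠ 0 → f ω ∈ S) (N : ℕ) (hN : S.card = N) (hN0 : 0 < N)
    (h : Real.logb 2 N - 1 / (8 * N) ≤ Hh w f) :
    ∀ c ∈ S, 1 / (2 * (N : ℝ)) ≤ Pw w (fun ω => f ω = c) ∧ Pw w (fun ω => f ω = c) ≤ 2 / N := by
  classical
  set P : α → ℝ := fun c => Pw w (fun ω => f ω = c) with hP
  have hP0 : ∀ c, 0 ≤ P c := fun c => Pw_nonneg w hw _
  have hNr : (0 : ℝ) < N := by exact_mod_cast hN0
  have hl2 : 0 < Real.log 2 := Real.log_pos (by norm_num)
  have hsum : ∑ c ∈ S, P c = 1 := by rw [← hm]; exact sum_Pw_values w f S hS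
  -- the defect
  have key : ∑ c ∈ S, phi (N * P c) / N = Real.log 2 * (Real.logb 2 N - Hh w f) := by
    rw [Hh_sum w hm f S hS]
    have h1 : ∀ c ∈ S, phi (N * P c) / N = P c * Real.log N + Real.log 2 * (P c * Real.logb 2 (P c))
        - P c + 1 / N := by
      intro c _
      unfold phi
      by_cases h0 : P c = 0
      · rw [h0]
        simp
      · rw [Real.log_mul hNr.ne' h0]
        have h2 : Real.log 2 * (P c * Real.logb 2 (P c)) = P c * Real.log (P c) := by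
          unfold Real.logb
          field_simp
        rw [h2]
        field_simp
    rw [Finset.sum_congr rfl h1, Finset.sum_add_distrib, Finset.sum_sub_distrib,
      Finset.sum_add_distrib, ← Finset.sum_mul, hsum, ← Finset.mul_sum, Finset.sum_const, hN,
      nsmul_eq_mul]
    have h3 : (N : ℝ) * (1 / N) = 1 := by field_simp
    have h4 : Real.log 2 * Real.logb 2 N = Real.log N := by
      unfold Real.logb
      field_simp
    rw [h3, mul_sub, h4]
    ring
  have hle : Real.log 2 * (Real.logb 2 N - Hh w f) ≤ 1 / (8 * N) := by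
    have h1 : Real.logb 2 N - Hh w f ≤ 1 / (8 * N) := by linarith
    have h2 : Real.log 2 ≤ 1 := by
      have := Real.log_two_lt_d9
      linarith
    have h3 : (0 : ℝ) < 1 / (8 * N) := by positivity
    calc Real.log 2 * (Real.logb 2 N - Hh w f) ≤ Real.log 2 * (1 / (8 * N)) :=
          mul_le_mul_of_nonneg_left h1 hl2.le
      _ ≤ 1 * (1 / (8 * N)) := mul_le_mul_of_nonneg_right h2 h3.le
      _ = _ := one_mul _
  intro c hc
  have h1 : phi (N * P c) / N ≤ 1 / (8 * N) := by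
    refine le_trans ?_ (le_trans key.le hle)
    exact Finset.single_le_sum (f := fun c => phi (N * P c) / N)
      (fun c _ => div_nonneg (phi_nonneg (mul_nonneg hNr.le (hP0 c))) hNr.le) hc
  have h2 : phi (N * P c) ≤ 1 / 8 := by
    rw [div_le_iff₀ hNr] at h1
    have h3 : 1 / (8 * (N : ℝ)) * N = 1 / 8 := by field_simp
    linarith
  constructor
  · by_contra hcon
    push Not at hcon
    have h3 : N * P c < 1 / 2 := by
      have h4 : (N : ℝ) * P c < N * (1 / (2 * N)) := mul_lt_mul_of_pos_left hcon hNr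
      have h5 : (N : ℝ) * (1 / (2 * N)) = 1 / 2 := by field_simp
      linarith
    have h4 := phi_small (mul_nonneg hNr.le (hP0 c)) h3
    linarith
  · by_contra hcon
    push Not at hcon
    have h3 : 2 < N * P c := by
      have h4 : (N : ℝ) * (2 / N) < N * P c := mul_lt_mul_of_pos_left hcon hNr
      have h5 : (N : ℝ) * (2 / N) = 2 := by field_simp
      linarith
    have h4 := phi_large h3
    linarith

/-- the entropy is at most `log card` -/
theorem Hh_le_card (w : Ω → ℝ) (hw : ∀ ω, 0 ≤ w ω) (hm : ∑ ω, w ω = 1) (f : Ω → α) (S : Finset α)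
    (hS : ∀ ω, w ω ≠ 0 → f ω ∈ S) (N : ℕ) (hN : S.card ≤ N) (hN0 : 0 < N) :
    Hh w f ≤ Real.logb 2 N := by
  classical
  have hNr : (0 : ℝ) < N := by exact_mod_cast hN0
  have h1 := Hh_le w hw hm f S (fun _ => 1 / (N : ℝ)) (fun _ => by positivity) (fun _ _ => by positivity)
    (by
      rw [Finset.sum_const, nsmul_eq_mul, mul_one_div, div_le_one hNr]
      exact_mod_cast hN) hS
  refine le_trans h1 (le_of_eq ?_)
  rw [← Finset.sum_mul, hm, one_mul, one_div, Real.logb_inv, neg_neg]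

/-! ### windows -/

/-- cells -/
noncomputable def cl (l : ℕ) (x : ℝ) : ℤ := ⌊(2 : ℝ) ^ l * x⌋

theorem cl_mem {l : ℕ} {x : ℝ} (h0 : 0 ≤ x) (h1 : x < 1) : cl l x ∈ Finset.Ico (0 : ℤ) (2 ^ l) := by
  rw [Finset.mem_Ico]
  unfold cl
  constructor
  · exact Int.floor_nonneg.mpr (by positivity)
  · rw [Int.floor_lt]
    push_cast
    have h2 : (0 : ℝ) < 2 ^ l := by positivity
    nlinarith

/-- the window of `ρ` digits after level `l` -/
theorem cl_window (l ρ : ℕ) (x : ℝ) :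
    cl (l + ρ) x ∈ (Finset.range (2 ^ ρ)).image (fun k : ℕ => cl l x * 2 ^ ρ + (k : ℤ)) := by
  have h1 := Int.floor_le ((2 : ℝ) ^ l * x)
  have h2 := Int.lt_floor_add_one ((2 : ℝ) ^ l * x)
  have hp : (0 : ℝ) < 2 ^ ρ := by positivity
  have h3 : cl l x * 2 ^ ρ ≤ cl (l + ρ) x := by
    unfold cl
    rw [Int.le_floor]
    push_cast
    rw [pow_add]
    nlinarith
  have h4 : cl (l + ρ) x < (cl l x + 1) * 2 ^ ρ := by
    unfold cl
    rw [Int.floor_lt]
    push_cast
    rw [pow_add]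
    nlinarith
  rw [Finset.mem_image]
  refine ⟨(cl (l + ρ) x - cl l x * 2 ^ ρ).toNat, ?_, ?_⟩
  · rw [Finset.mem_range]
    have h5 : cl (l + ρ) x - cl l x * 2 ^ ρ < ((2 ^ ρ : ℕ) : ℤ) := by
      push_cast
      linarith
    omega
  · rw [Int.toNat_of_nonneg (by linarith)]
    ring

theorem cl_coarse {l ρ : ℕ} {x y : ℝ} (h : cl (l + ρ) x = cl (l + ρ) y) : cl l x = cl l y := by
  have hx := cl_window l ρ x
  have hy := cl_window l ρ y
  rw [Finset.mem_image] at hx hy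
  obtain ⟨k, hk, hx⟩ := hx
  obtain ⟨k', hk', hy⟩ := hy
  rw [Finset.mem_range] at hk hk'
  have e1 : cl l x * 2 ^ ρ + (k : ℤ) = cl l y * 2 ^ ρ + (k' : ℤ) := by
    rw [hx, hy, h]
  have e2 : (k : ℤ) < 2 ^ ρ := by exact_mod_cast hk
  have e3 : (k' : ℤ) < 2 ^ ρ := by exact_mod_cast hk'
  have e4 : (0 : ℤ) ≤ k := by positivity
  have e5 : (0 : ℤ) ≤ k' := by positivity
  have e6 : (0 : ℤ) < 2 ^ ρ := by positivity
  by_contra hne
  rcases lt_or_gt_of_ne hne with hlt | hlt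
  · have : cl l x + 1 ≤ cl l y := hlt
    nlinarith
  · have : cl l y + 1 ≤ cl l x := hlt
    nlinarith

/-- the window after the cell of level `l` is uniform up to a factor `2` -/
def Unif (μ : Ω → ℝ) (T : Ω → ℝ) (ρ l : ℕ) (ω : Ω) : Prop :=
  ∀ k : ℕ, k < 2 ^ ρ → 1 / (2 * (2 : ℝ) ^ ρ) ≤ Pw (cw μ (fun ω' => cl l (T ω')) ω)
      (fun ω' => cl (l + ρ) (T ω') = cl l (T ω) * 2 ^ ρ + (k : ℤ)) ∧
    Pw (cw μ (fun ω' => cl l (T ω')) ω)
      (fun ω' => cl (l + ρ) (T ω') = cl l (T ω) * 2 ^ ρ + (k : ℤ)) ≤ 2 / 2 ^ ρ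

theorem card_window (c : ℤ) (ρ : ℕ) :
    ((Finset.range (2 ^ ρ)).image (fun k : ℕ => c * 2 ^ ρ + (k : ℤ))).card = 2 ^ ρ := by
  rw [Finset.card_image_of_injective, Finset.card_range]
  intro a b hab
  simp only at hab
  omega

theorem logb_two_pow (ρ : ℕ) : Real.logb 2 ((2 ^ ρ : ℕ) : ℝ) = ρ := by
  push_cast
  rw [Real.logb_pow, Real.logb_self_eq_one (by norm_num), mul_one]

/-- local entropy of a window is at most `ρ` -/
theorem win_le (μ : Ω → ℝ) (hμ : ∀ ω, 0 ≤ μ ω) (T : Ω → ℝ) (ρ l : ℕ) (ω : Ω) (h0 : μ ω ≠ 0) :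
    Hh (cw μ (fun ω' => cl l (T ω')) ω) (fun ω' => cl (l + ρ) (T ω')) ≤ ρ := by
  have h1 := Hh_le_card (cw μ (fun ω' => cl l (T ω')) ω) (fun ω' => cw_nonneg μ _ hμ ω ω')
    (cw_sum μ _ hμ ω h0) (fun ω' => cl (l + ρ) (T ω'))
    ((Finset.range (2 ^ ρ)).image (fun k : ℕ => cl l (T ω) * 2 ^ ρ + (k : ℤ))) (by
      intro ω' h
      obtain ⟨h2, -⟩ := cw_ne_zero μ _ h
      have h3 := cl_window l ρ (T ω')
      rw [h2] at h3
      exact h3) (2 ^ ρ) (card_window _ _).le (by positivity)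
  rw [logb_two_pow] at h1
  exact h1

/-- nearly full windows are uniform -/
theorem unif_of_win (μ : Ω → ℝ) (hμ : ∀ ω, 0 ≤ μ ω) (T : Ω → ℝ) (ρ l : ℕ) (ω : Ω) (h0 : μ ω ≠ 0)
    (h : (ρ : ℝ) - 1 / (8 * 2 ^ ρ) ≤
      Hh (cw μ (fun ω' => cl l (T ω')) ω) (fun ω' => cl (l + ρ) (T ω'))) : Unif μ T ρ l ω := by
  have h1 := mass_of_ent (cw μ (fun ω' => cl l (T ω')) ω) (fun ω' => cw_nonneg μ _ hμ ω ω')
    (cw_sum μ _ hμ ω h0) (fun ω' => cl (l + ρ) (T ω'))
    ((Finset.range (2 ^ ρ)).image (fun k : ℕ => cl l (T ω) * 2 ^ ρ + (k : ℤ))) (by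
      intro ω' h
      obtain ⟨h2, -⟩ := cw_ne_zero μ _ h
      have h3 := cl_window l ρ (T ω')
      rw [h2] at h3
      exact h3) (2 ^ ρ) (card_window _ _) (by positivity) (by
        rw [logb_two_pow]
        push_cast
        exact h)
  intro k hk
  have h2 := h1 (cl l (T ω) * 2 ^ ρ + (k : ℤ)) (Finset.mem_image.mpr ⟨k, Finset.mem_range.mpr hk, rfl⟩)
  push_cast at h2
  exact h2

/-- the conditional entropies of the windows -/
theorem CH_win (μ : Ω → ℝ) (T : Ω → ℝ) (ρ l : ℕ) :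
    CH μ (fun ω => cl (l + ρ) (T ω)) (fun ω => cl l (T ω)) =
      Hh μ (fun ω => cl (l + ρ) (T ω)) - Hh μ (fun ω => cl l (T ω)) := by
  have h1 := e1_chain μ (fun ω => cl l (T ω)) (fun ω => cl (l + ρ) (T ω)) (fun _ => ())
  have h2 : CH μ (fun ω => (cl l (T ω), cl (l + ρ) (T ω))) (fun _ => ()) =
      Hh μ (fun ω => cl (l + ρ) (T ω)) := by
    unfold Hh
    refine e2_CH_congr μ _ _ _ _ (fun _ _ _ _ => by simp) ?_
    intro ω ω' _ _
    simp only [Prod.mk.injEq, and_true]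
    constructor
    · exact fun h => h.2
    · exact fun h => ⟨cl_coarse h, h⟩
  have h3 : CH μ (fun ω => cl (l + ρ) (T ω)) (fun ω => (cl l (T ω), ())) =
      CH μ (fun ω => cl (l + ρ) (T ω)) (fun ω => cl l (T ω)) := by
    refine e2_CH_congr μ _ _ _ _ (fun _ _ _ _ => by simp) (fun _ _ _ _ => by simp)
  rw [h2, h3] at h1
  unfold Hh at h1 ⊢
  linarith

/-- **most windows of a real variable are uniform** -/
theorem sum_win (μ : Ω → ℝ) (hμ : ∀ ω, 0 ≤ μ ω) (hm : ∑ ω, μ ω = 1) (T : Ω → ℝ)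
    (hT : ∀ ω, μ ω ≠ 0 → 0 ≤ T ω ∧ T ω < 1) (n : ℕ) (A : ℝ)
    (hH : n - A ≤ Hh μ (fun ω => cl n (T ω))) (ρ M : ℕ) (hM : M + ρ ≤ n + 1) :
    ∑ l ∈ range M, Pw μ (fun ω => ¬ Unif μ T ρ l ω) ≤ 8 * 2 ^ ρ * (ρ * (A + ρ)) := by
  classical
  set H : ℕ → ℝ := fun l => Hh μ (fun ω => cl l (T ω)) with hHdef
  have hup : ∀ l, H l ≤ l := by
    intro l
    have h1 := Hh_le_card μ hμ hm (fun ω => cl l (T ω)) (Finset.Ico (0 : ℤ) (2 ^ l))
      (fun ω h => cl_mem (hT ω h).1 (hT ω h).2) (2 ^ l) (by simp) (by positivity)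
    rw [logb_two_pow] at h1
    exact h1
  have hstep : ∀ l k, 0 ≤ H (l + k) - H l ∧ H (l + k) - H l ≤ k := by
    intro l k
    rw [hHdef]
    simp only
    rw [← CH_win μ T k l]
    refine ⟨e1_nonneg μ _ _ hμ, ?_⟩
    rw [CH_disint μ hμ]
    have h1 : ∀ ω ∈ (univ : Finset Ω), μ ω * Hh (cw μ (fun ω' => cl l (T ω')) ω) (fun ω' => cl (l + k) (T ω'))
        ≤ μ ω * k := by
      intro ω _
      by_cases h0 : μ ω = 0
      · simp [h0]
      · exact mul_le_mul_of_nonneg_left (win_le μ hμ T k l ω h0) (hμ ω)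
    refine le_trans (Finset.sum_le_sum h1) ?_
    rw [← Finset.sum_mul, hm, one_mul]
  have hlow : ∀ l, l ≤ n → (l : ℝ) - A ≤ H l := by
    intro l hl
    have h1 := (hstep l (n - l)).2
    rw [Nat.add_sub_cancel' hl] at h1
    have h2 : ((n - l : ℕ) : ℝ) = n - l := by
      rw [Nat.cast_sub hl]
    rw [h2] at h1
    have h3 : (n : ℝ) - A ≤ H n := hH
    linarith
  -- each level
  have hlev : ∀ l, Pw μ (fun ω => ¬ Unif μ T ρ l ω) ≤ 8 * 2 ^ ρ * (ρ - (H (l + ρ) - H l)) := by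
    intro l
    have h1 : H (l + ρ) - H l = ∑ ω, μ ω * Hh (cw μ (fun ω' => cl l (T ω')) ω) (fun ω' => cl (l + ρ) (T ω')) := by
      rw [hHdef]
      simp only
      rw [← CH_win μ T ρ l, CH_disint μ hμ]
    have h2 : ∑ ω, μ ω * ((ρ : ℝ) - Hh (cw μ (fun ω' => cl l (T ω')) ω) (fun ω' => cl (l + ρ) (T ω')))
        = ρ - (H (l + ρ) - H l) := by
      rw [h1]
      simp only [mul_sub]
      rw [Finset.sum_sub_distrib, ← Finset.sum_mul, hm, one_mul]
    have hpos : (0 : ℝ) < 1 / (8 * 2 ^ ρ) := by positivity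
    have h3 := Pw_markov μ hμ (fun ω => (ρ : ℝ) - Hh (cw μ (fun ω' => cl l (T ω')) ω)
      (fun ω' => cl (l + ρ) (T ω'))) (fun ω h0 => by
        have := win_le μ hμ T ρ l ω h0
        linarith) hpos h2.le
    refine le_trans (le_trans (Pw_mono μ hμ ?_) h3) (le_of_eq ?_)
    · intro ω h0 hω
      by_contra hcon
      push Not at hcon
      exact hω (unif_of_win μ hμ T ρ l ω h0 (by linarith))
    · field_simp
  refine le_trans (Finset.sum_le_sum fun l _ => hlev l) ?_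
  rw [← Finset.mul_sum]
  refine mul_le_mul_of_nonneg_left ?_ (by positivity)
  -- telescoping
  have htel : ∀ ρ' : ℕ, ρ' ≤ ρ → (ρ' : ℝ) * (M - A) - ρ' * ρ ≤ ∑ l ∈ range M, (H (l + ρ') - H l) := by
    intro ρ'
    induction ρ' with
    | zero => intro _; simp
    | succ r ih =>
      intro hr
      have h1 := ih (by omega)
      have h2 : ∑ l ∈ range M, (H (l + (r + 1)) - H l) =
          ∑ l ∈ range M, (H (l + r) - H l) + ∑ l ∈ range M, (H ((l + 1) + r) - H (l + r)) := by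
        rw [← Finset.sum_add_distrib]
        refine Finset.sum_congr rfl fun l _ => ?_
        have : l + (r + 1) = l + 1 + r := by ring
        rw [this]
        ring
      have h3 : ∑ l ∈ range M, (H ((l + 1) + r) - H (l + r)) = H (M + r) - H (0 + r) :=
        Finset.sum_range_sub (fun l => H (l + r)) M
      rw [h2, h3]
      have h4 := hlow (M + r) (by omega)
      have h5 := hup (0 + r)
      have h6 : (r : ℝ) ≤ ρ := by exact_mod_cast (by omega : r ≤ ρ)
      push_cast at h4 h5 ⊢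
      linarith
  have h1 := htel ρ le_rfl
  rw [Finset.sum_sub_distrib, Finset.sum_const, card_range, nsmul_eq_mul]
  linarith

end Pool.Agent.Helper58.VW
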