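import Pool.Agent.Helper46.WF.Ent

/-!
# The body of a law of vectors

`D` is a random vector in `R^b` with coordinates in `[-1, 1]`.  `exists_body`: there is a parallelepiped
`K = {x : |f_i(x)| <= 1}` (`f` an invertible matrix) containing the vectors `κ e_j`, of volume at most
twice that of the unit cube, such that `Λ P(D ∉ K)` is at most `1 + log |det f|` (`<= 1 + b log (1/κ) + log b!`)
and such that EVERY covector `ν` with `h_K(ν) = 1` is represented: either `|ν| > 1/(4b)` at some `κ e_j`, or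
`P(D ∈ K and |ν(D)| > 1/(4b)) >= 1/Λ`.

`exists_frame`: among finitely many vectors which span there are `b` of them in terms of which all the
others have coordinates in `[-1, 1]`.
-/

set_option autoImplicit false

namespace Pool.Agent.Helper58.VW

open Finset Pool.Agent.Helper46.WF Matrix

variable {Ω : Type} [Fintype Ω] {b : ℕ}

/-- the parallelepiped `|f_i| <= 1` -/
def InK (f : Matrix (Fin b) (Fin b) ℝ) (x : Fin b → ℝ) : Prop := ∀ i, |(f *ᵥ x) i| ≤ 1

/-- `log volume + penalty` -/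
noncomputable def Phi (w : Ω → ℝ) (D : Ω → Fin b → ℝ) (L : ℝ) (f : Matrix (Fin b) (Fin b) ℝ) : ℝ :=
  - Real.logb 2 |f.det| + L * Pw w (fun ω => ¬ InK f (D ω))

/-- admissible frames -/
def Adm (κ : ℝ) (f : Matrix (Fin b) (Fin b) ℝ) : Prop := f.det ≠ 0 ∧ ∀ i j, |f i j| * κ ≤ 1

theorem Adm.det_le {κ : ℝ} (hκ : 0 < κ) {f : Matrix (Fin b) (Fin b) ℝ} (h : Adm κ f) :
    |f.det| ≤ (b.factorial : ℝ) * (1 / κ) ^ b := by
  have h1 : ∀ i j, |f i j| ≤ 1 / κ := by
    intro i j
    rw [le_div_iff₀ hκ]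
    exact h.2 i j
  have h2 := Matrix.det_le (A := f) (abv := AbsoluteValue.abs) (x := 1 / κ) (fun i j => h1 i j)
  simpa using h2

theorem Adm.logb_le {κ : ℝ} (hκ : 0 < κ) {f : Matrix (Fin b) (Fin b) ℝ} (h : Adm κ f) :
    Real.logb 2 |f.det| ≤ Real.logb 2 b.factorial + b * Real.logb 2 (1 / κ) := by
  have h0 : 0 < |f.det| := abs_pos.mpr h.1
  have h1 := Real.logb_le_logb_of_le (b := 2) (by norm_num) h0 (h.det_le hκ)
  have h2 : (0 : ℝ) < b.factorial := by
    exact_mod_cast Nat.factorial_pos b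
  have h3 : (0 : ℝ) < (1 / κ) ^ b := by positivity
  rw [Real.logb_mul h2.ne' h3.ne', Real.logb_pow] at h1
  exact h1

/-- **THE BODY OF A LAW** -/
theorem exists_body (hb : 0 < b) (w : Ω → ℝ) (hw : ∀ ω, 0 ≤ w ω) (D : Ω → Fin b → ℝ)
    (hD : ∀ ω, w ω ≠ 0 → ∀ i, |D ω i| ≤ 1) (κ L : ℝ) (hκ : 0 < κ) (hκ1 : κ ≤ 1) (hL : 0 ≤ L) :
    ∃ f : Matrix (Fin b) (Fin b) ℝ, Adm κ f ∧
      L * Pw w (fun ω => ¬ InK f (D ω)) ≤ 1 + Real.logb 2 |f.det| ∧
      ∀ ν : Fin b → ℝ, ∑ i, |ν i| = 1 →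
        (∃ j, 1 / (4 * (b : ℝ)) < |∑ i, ν i * f i j| * κ) ∨
        1 ≤ L * Pw w (fun ω => InK f (D ω) ∧ 1 / (4 * (b : ℝ)) < |∑ i, ν i * (f *ᵥ D ω) i|) := by
  classical
  have hb0 : (0 : ℝ) < b := by exact_mod_cast hb
  set S : Set ℝ := Phi w D L '' {f | Adm κ f} with hS
  have hbdd : BddBelow S := by
    refine ⟨- (Real.logb 2 b.factorial + b * Real.logb 2 (1 / κ)), ?_⟩
    rintro _ ⟨f, hf, rfl⟩
    have h1 := Adm.logb_le hκ hf
    have h2 : 0 ≤ L * Pw w (fun ω => ¬ InK f (D ω)) := mul_nonneg hL (Pw_nonneg w hw _)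
    unfold Phi
    linarith
  have hid : Adm κ (1 : Matrix (Fin b) (Fin b) ℝ) := by
    refine ⟨by simp, ?_⟩
    intro i j
    by_cases hij : i = j
    · rw [hij, one_apply_eq, abs_one, one_mul]
      exact hκ1
    · rw [one_apply_ne hij, abs_zero, zero_mul]
      norm_num
  have hid2 : Phi w D L 1 = 0 := by
    unfold Phi
    have h1 : Pw w (fun ω => ¬ InK (1 : Matrix (Fin b) (Fin b) ℝ) (D ω)) = 0 := by
      unfold Pw
      refine Finset.sum_eq_zero fun ω _ => ?_
      by_cases h0 : w ω = 0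
      · simp [h0]
      · rw [if_neg]
        rw [not_not]
        intro i
        rw [one_mulVec]
        exact hD ω h0 i
    rw [h1, det_one, abs_one, Real.logb_one]
    ring
  have hne : S.Nonempty := ⟨_, 1, hid, rfl⟩
  obtain ⟨_, ⟨f, hf, rfl⟩, hlt⟩ := exists_lt_of_csInf_lt hne (show sInf S < sInf S + 1 / 2 by linarith)
  have hmin : ∀ g, Adm κ g → Phi w D L f ≤ Phi w D L g + 1 / 2 := by
    intro g hg
    have := csInf_le hbdd ⟨g, hg, rfl⟩
    linarith
  refine ⟨f, hf, ?_, ?_⟩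
  · have h1 := hmin 1 hid
    rw [hid2] at h1
    unfold Phi at h1
    linarith
  intro ν hν
  by_contra hcon
  push Not at hcon
  obtain ⟨hc1, hc2⟩ := hcon
  -- a large coordinate
  obtain ⟨i, hi⟩ : ∃ i, 1 / (b : ℝ) ≤ |ν i| := by
    by_contra hc
    push Not at hc
    have : Nonempty (Fin b) := ⟨⟨0, hb⟩⟩
    have h1 : ∑ i, |ν i| < ∑ _i : Fin b, 1 / (b : ℝ) :=
      Finset.sum_lt_sum_of_nonempty Finset.univ_nonempty (fun i _ => hc i)
    rw [hν, Finset.sum_const, card_univ, Fintype.card_fin, nsmul_eq_mul] at h1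
    have h2 : (b : ℝ) * (1 / b) = 1 := by field_simp
    rw [h2] at h1
    exact lt_irrefl _ h1
  set c : ℝ := 1 / (4 * (b : ℝ)) with hc
  have hc0 : 0 < c := by positivity
  set g : Fin b → ℝ := ∑ k, (c⁻¹ * ν k) • f k with hg
  have hgj : ∀ j, g j = c⁻¹ * ∑ k, ν k * f k j := by
    intro j
    rw [hg, Finset.sum_apply, Finset.mul_sum]
    refine Finset.sum_congr rfl fun k _ => ?_
    show c⁻¹ * ν k * f k j = _
    ring
  have hgx : ∀ x : Fin b → ℝ, ∑ j, g j * x j = c⁻¹ * ∑ k, ν k * (f *ᵥ x) k := by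
    intro x
    have h1 : ∀ j, g j * x j = ∑ k, c⁻¹ * (ν k * (f k j * x j)) := by
      intro j
      rw [hgj, Finset.mul_sum, Finset.sum_mul]
      refine Finset.sum_congr rfl fun k _ => ?_
      ring
    simp only [h1]
    rw [Finset.sum_comm, Finset.mul_sum]
    refine Finset.sum_congr rfl fun k _ => ?_
    rw [← Finset.mul_sum, ← Finset.mul_sum]
    rfl
  set f' : Matrix (Fin b) (Fin b) ℝ := f.updateRow i g with hf'
  have hdet : f'.det = (c⁻¹ * ν i) * f.det := by
    rw [hf', hg, Matrix.det_updateRow_sum, smul_eq_mul]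
  have hνi : ν i ≠ 0 := by
    intro h0
    rw [h0, abs_zero] at hi
    have : (0 : ℝ) < 1 / b := by positivity
    linarith
  have h4 : 4 ≤ |c⁻¹ * ν i| := by
    rw [abs_mul, abs_of_pos (inv_pos.mpr hc0)]
    have h1 : c⁻¹ = 4 * b := by
      rw [hc]
      simp
    rw [h1]
    have h2 : 4 * (b : ℝ) * (1 / b) ≤ 4 * b * |ν i| := mul_le_mul_of_nonneg_left hi (by positivity)
    have h3 : 4 * (b : ℝ) * (1 / b) = 4 := by field_simp
    linarith
  have hadm : Adm κ f' := by
    refine ⟨?_, ?_⟩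
    · rw [hdet]
      exact mul_ne_zero (mul_ne_zero (inv_ne_zero hc0.ne') hνi) hf.1
    · intro k j
      by_cases hk : k = i
      · subst hk
        rw [hf', Matrix.updateRow_self, hgj, abs_mul, abs_of_pos (inv_pos.mpr hc0), mul_assoc]
        have h1 := hc1 j
        rw [inv_mul_le_iff₀ hc0, mul_one]
        exact h1
      · rw [hf', Matrix.updateRow_ne hk]
        exact hf.2 k j
  have hlog : Real.logb 2 |f.det| + 2 ≤ Real.logb 2 |f'.det| := by
    rw [hdet, abs_mul]
    have h0 : |c⁻¹ * ν i| ≠ 0 := by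
      intro h0
      rw [h0] at h4
      linarith
    rw [Real.logb_mul h0 (abs_ne_zero.mpr hf.1)]
    have h1 : Real.logb 2 4 ≤ Real.logb 2 |c⁻¹ * ν i| :=
      Real.logb_le_logb_of_le (by norm_num) (by norm_num) h4
    have h2 : Real.logb 2 4 = 2 := by
      rw [show (4 : ℝ) = 2 ^ (2 : ℕ) by norm_num, Real.logb_pow]
      norm_num
    linarith
  have hP : Pw w (fun ω => ¬ InK f' (D ω)) ≤ Pw w (fun ω => ¬ InK f (D ω)) +
      Pw w (fun ω => InK f (D ω) ∧ c < |∑ i, ν i * (f *ᵥ D ω) i|) := by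
    refine le_trans (Pw_mono w hw ?_) (Pw_or w hw _ _)
    intro ω _ hω
    by_cases hK : InK f (D ω)
    · right
      refine ⟨hK, ?_⟩
      by_contra hcon
      push Not at hcon
      apply hω
      intro k
      by_cases hk : k = i
      · subst hk
        have h1 : (f' *ᵥ D ω) k = c⁻¹ * ∑ j, ν j * (f *ᵥ D ω) j := by
          rw [← hgx]
          show ∑ j, f' k j * D ω j = _
          rw [hf']
          simp [Matrix.updateRow_self]
        rw [h1, abs_mul, abs_of_pos (inv_pos.mpr hc0), inv_mul_le_iff₀ hc0, mul_one]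
        exact hcon
      · have h1 : (f' *ᵥ D ω) k = (f *ᵥ D ω) k := by
          show ∑ j, f' k j * D ω j = ∑ j, f k j * D ω j
          rw [hf']
          simp [Matrix.updateRow_ne hk]
        rw [h1]
        exact hK k
    · exact Or.inl hK
  have h1 := hmin f' hadm
  unfold Phi at h1
  have h2 : L * Pw w (fun ω => ¬ InK f' (D ω)) ≤ L * Pw w (fun ω => ¬ InK f (D ω)) +
      L * Pw w (fun ω => InK f (D ω) ∧ c < |∑ i, ν i * (f *ᵥ D ω) i|) := by
    rw [← mul_add]
    exact mul_le_mul_of_nonneg_left hP hL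
  linarith

/-! ### maximal determinant -/

/-- among finitely many vectors which span `R^b` there are `b` of them in terms of which all the others
have coordinates in `[-1, 1]` -/
theorem exists_frame {ι : Type*} (s : Finset ι) (v : ι → Fin b → ℝ)
    (hs : ∃ q : Fin b → ι, (∀ i, q i ∈ s) ∧ (Matrix.of (fun i => v (q i))).det ≠ 0) :
    ∃ q : Fin b → ι, (∀ i, q i ∈ s) ∧ (Matrix.of (fun i => v (q i))).det ≠ 0 ∧
      ∀ x ∈ s, ∃ t : Fin b → ℝ, (∀ i, |t i| ≤ 1) ∧ v x = ∑ i, t i • v (q i) := by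
  classical
  obtain ⟨q0, hq0, hd0⟩ := hs
  obtain ⟨q, hq, hmax⟩ := Finset.exists_max_image (Fintype.piFinset (fun _ : Fin b => s))
    (fun q => |(Matrix.of (fun i => v (q i))).det|) ⟨q0, by rw [Fintype.mem_piFinset]; exact hq0⟩
  rw [Fintype.mem_piFinset] at hq
  set M : Matrix (Fin b) (Fin b) ℝ := Matrix.of (fun i => v (q i)) with hM
  have hd : M.det ≠ 0 := by
    intro h0
    have h1 : |(Matrix.of (fun i => v (q0 i))).det| ≤ |M.det| :=
      hmax q0 (by rw [Fintype.mem_piFinset]; exact hq0)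
    rw [h0, abs_zero] at h1
    exact hd0 (abs_eq_zero.mp (le_antisymm h1 (abs_nonneg _)))
  refine ⟨q, hq, hd, ?_⟩
  intro x hx
  have hu : IsUnit M.det := isUnit_iff_ne_zero.mpr hd
  set t : Fin b → ℝ := v x ᵥ* M⁻¹ with ht
  have htM : t ᵥ* M = v x := by
    rw [ht, Matrix.vecMul_vecMul, Matrix.nonsing_inv_mul _ hu, Matrix.vecMul_one]
  have hvx : v x = ∑ i, t i • v (q i) := by
    rw [← htM]
    ext j
    rw [Finset.sum_apply]
    rfl
  refine ⟨t, ?_, hvx⟩
  intro i
  have h1 : |(Matrix.of (fun k => v (Function.update q i x k))).det| ≤ |M.det| :=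
      hmax (Function.update q i x) (by
    rw [Fintype.mem_piFinset]
    intro k
    by_cases hk : k = i
    · subst hk
      rw [Function.update_self]
      exact hx
    · rw [Function.update_of_ne hk]
      exact hq k)
  have h2 : Matrix.of (fun k => v (Function.update q i x k)) = M.updateRow i (∑ k, t k • M k) := by
    ext k j
    by_cases hk : k = i
    · subst hk
      rw [Matrix.updateRow_self, Matrix.of_apply, Function.update_self, hvx]
      rfl
    · rw [Matrix.updateRow_ne hk, Matrix.of_apply, Function.update_of_ne hk]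
      rfl
  rw [h2, Matrix.det_updateRow_sum, smul_eq_mul, abs_mul] at h1
  have h3 : 0 < |M.det| := abs_pos.mpr hd
  have h4 : |t i| * |M.det| ≤ 1 * |M.det| := by
    rw [one_mul]
    exact h1
  exact le_of_mul_le_mul_right h4 h3

end Pool.Agent.Helper58.VW
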