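import Mathlib

/-!
# Hyers-Ulam on an interval

`hu`: a map `f : {0..N} -> E` which is additive on quadruples up to `ε` (for a seminorm `p`) is affine up
to `3 ε`; the constant does not depend on `N`.
-/

set_option autoImplicit false

namespace Pool.Agent.Helper58.VW

open Finset

variable {E : Type*} [AddCommGroup E] [Module ℝ E]

/-- additive on quadruples up to `ε` -/
def QA (p : Seminorm ℝ E) (N : ℕ) (ε : ℝ) (f : ℕ → E) : Prop :=
  ∀ i j k m : ℕ, i ≤ N → j ≤ N → k ≤ N → m ≤ N → i + m = j + k → p (f i + f m - f j - f k) ≤ ε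

/-- maps which vanish at both ends -/
theorem hu_zero (p : Seminorm ℝ E) (N : ℕ) (ε : ℝ) (g : ℕ → E) (h : QA p N ε g)
    (h0 : g 0 = 0) (hN : g N = 0) : ∀ i ≤ N, p (g i) ≤ 3 * ε := by
  obtain ⟨i0, hi0, hmax⟩ := Finset.exists_max_image (range (N + 1)) (fun i => p (g i)) ⟨0, by simp⟩
  have hi0' : i0 ≤ N := by
    rw [mem_range] at hi0
    omega
  have hmax' : ∀ i ≤ N, p (g i) ≤ p (g i0) := fun i hi => hmax i (by rw [mem_range]; omega)
  have two : ∀ j : ℕ, 2 * j ≤ N → 2 * p (g j) ≤ ε + p (g i0) := by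
    intro j hj
    have h1 := h (2 * j) j j 0 hj (by omega) (by omega) (by omega) (by omega)
    have h2 := hmax' (2 * j) hj
    have h3 : (2 : ℝ) • g j = g (2 * j) - (g (2 * j) + g 0 - g j - g j) := by
      rw [h0, two_smul]
      abel
    have h4 : p ((2 : ℝ) • g j) = 2 * p (g j) := by
      rw [map_smul_eq_mul]
      norm_num
    have h5 := map_sub_le_add p (g (2 * j)) (g (2 * j) + g 0 - g j - g j)
    rw [← h3, h4] at h5
    linarith
  have hM : p (g i0) ≤ 3 * ε := by
    by_cases hc : 2 * i0 ≤ N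
    · have h1 := two i0 hc
      have h2 : 0 ≤ p (g i0) := apply_nonneg p _
      linarith
    · push Not at hc
      have h1 := two (N - i0) (by omega)
      have h2 := h N i0 (N - i0) 0 le_rfl hi0' (by omega) (by omega) (by omega)
      have h3 : g i0 = - (g N + g 0 - g i0 - g (N - i0)) - g (N - i0) := by
        rw [hN, h0]
        abel
      have h5 := map_sub_le_add p (- (g N + g 0 - g i0 - g (N - i0))) (g (N - i0))
      rw [← h3, map_neg_eq_map] at h5
      linarith
  exact fun i hi => le_trans (hmax' i hi) hM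

/-- **Hyers-Ulam on an interval** -/
theorem hu (p : Seminorm ℝ E) (N : ℕ) (hN : 1 ≤ N) (ε : ℝ) (f : ℕ → E) (h : QA p N ε f) :
    ∀ i ≤ N, p (f i - f 0 - ((i : ℝ) / N) • (f N - f 0)) ≤ 3 * ε := by
  have hN' : (N : ℝ) ≠ 0 := by positivity
  set g : ℕ → E := fun i => f i - f 0 - ((i : ℝ) / N) • (f N - f 0) with hg
  have hq : QA p N ε g := by
    intro i j k m hi hj hk hm he
    have h1 := h i j k m hi hj hk hm he
    have h2 : g i + g m - g j - g k = f i + f m - f j - f k := by
      have h3 : ((i : ℝ) / N) + ((m : ℝ) / N) - ((j : ℝ) / N) - ((k : ℝ) / N) = 0 := by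
        have h4 : (i : ℝ) + m = j + k := by exact_mod_cast he
        have h5 : ((i : ℝ) / N) + ((m : ℝ) / N) - ((j : ℝ) / N) - ((k : ℝ) / N)
            = ((i : ℝ) + m - j - k) / N := by ring
        rw [h5, show (i : ℝ) + m - j - k = 0 by linarith, zero_div]
      have h6 : g i + g m - g j - g k = (f i + f m - f j - f k)
          - (((i : ℝ) / N) + ((m : ℝ) / N) - ((j : ℝ) / N) - ((k : ℝ) / N)) • (f N - f 0) := by
        simp only [hg, add_smul, sub_smul]
        abel
      rw [h6, h3, zero_smul, sub_zero]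
    rw [h2]
    exact h1
  refine hu_zero p N ε g hq ?_ ?_
  · simp [hg]
  · simp only [hg]
    rw [div_self hN', one_smul]
    abel

end Pool.Agent.Helper58.VW
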