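import Pool.Agent.Helper58.VW.HU
import Pool.Agent.Helper46.WF.Ent

/-!
# LEMMA A of ns_notes_16c (a cell whose small vectors have almost equal slopes is a thin tube)

`T` is a real variable with values in `[x0, x0 + n h)`, every subcell of length `h` has probability at
least `1 / (2 n)`; `A` has values in a real vector space with a seminorm `p`.  If two-term and four-term
differences `(η, s)` of independent copies with `h <= |η| <= 5 h` have `p (s - η σ) <= r` with probability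
at least `1 - δ`, `256 n^4 δ < 1`, then `p (A - T a - o) <= 48 r` for some `a`, `o`, with probability at
least `1 - 2 n^2 δ`.
-/

set_option autoImplicit false

namespace Pool.Agent.Helper58.VW

open Finset Pool.Agent.Helper46.WF

variable {E : Type*} [AddCommGroup E] [Module ℝ E] {Ω : Type} [Fintype Ω]

/-- the law of two independent copies -/
def w2 (w : Ω → ℝ) : Ω × Ω → ℝ := fun x => w x.1 * w x.2

/-- the law of four independent copies -/
def w4 (w : Ω → ℝ) : (Ω × Ω) × (Ω × Ω) → ℝ := fun x => w x.1.1 * w x.1.2 * (w x.2.1 * w x.2.2)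

theorem w2_nonneg {w : Ω → ℝ} (hw : ∀ ω, 0 ≤ w ω) (x : Ω × Ω) : 0 ≤ w2 w x :=
  mul_nonneg (hw _) (hw _)

theorem w4_nonneg {w : Ω → ℝ} (hw : ∀ ω, 0 ≤ w ω) (x : (Ω × Ω) × (Ω × Ω)) : 0 ≤ w4 w x :=
  mul_nonneg (mul_nonneg (hw _) (hw _)) (mul_nonneg (hw _) (hw _))

theorem Pw_prod {α β : Type} [Fintype α] [Fintype β] (u : α → ℝ) (v : β → ℝ) (P : α → Prop) (Q : β → Prop) :
    Pw (fun x : α × β => u x.1 * v x.2) (fun x => P x.1 ∧ Q x.2) = Pw u P * Pw v Q := by
  classical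
  unfold Pw
  rw [Finset.sum_mul_sum, ← Finset.univ_product_univ, Finset.sum_product]
  refine Finset.sum_congr rfl fun a _ => Finset.sum_congr rfl fun b _ => ?_
  by_cases h1 : P a <;> by_cases h2 : Q b <;> simp [h1, h2]

theorem Pw_w2 (w : Ω → ℝ) (P Q : Ω → Prop) : Pw (w2 w) (fun x => P x.1 ∧ Q x.2) = Pw w P * Pw w Q :=
  Pw_prod w w P Q

theorem Pw_w4 (w : Ω → ℝ) (P Q R S : Ω → Prop) :
    Pw (w4 w) (fun x => (P x.1.1 ∧ Q x.1.2) ∧ (R x.2.1 ∧ S x.2.2)) = Pw w P * Pw w Q * (Pw w R * Pw w S) := by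
  have h1 := Pw_prod (w2 w) (w2 w) (fun x => P x.1 ∧ Q x.2) (fun x => R x.1 ∧ S x.2)
  rw [Pw_w2, Pw_w2] at h1
  exact h1

/-- if a product set has mass larger than a bad set there is a good point -/
theorem exists_good {α : Type} [Fintype α] (w : α → ℝ) (hw : ∀ ω, 0 ≤ w ω) (P B : α → Prop)
    (h : Pw w B < Pw w P) : ∃ x, w x ≠ 0 ∧ P x ∧ ¬ B x := by
  by_contra hc
  push Not at hc
  have := Pw_mono w hw (A := P) (B := B) (fun ω h0 h1 => hc ω h0 h1)
  linarith

/-- averaging: some point of `Q` has a small section of the bad set over `P` -/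
theorem exists_sec (w : Ω → ℝ) (hw : ∀ ω, 0 ≤ w ω) (P Q : Ω → Prop) (B : Ω × Ω → Prop) (δ m : ℝ)
    (hm : 0 < m) (hQ : m ≤ Pw w Q) (hB : Pw (w2 w) (fun x => (P x.1 ∧ Q x.2) ∧ B x) ≤ δ) :
    ∃ ω0, w ω0 ≠ 0 ∧ Q ω0 ∧ Pw w (fun ω => P ω ∧ B (ω, ω0)) ≤ δ / m := by
  classical
  by_contra hc
  push Not at hc
  have hδ : 0 ≤ δ := le_trans (Pw_nonneg _ (w2_nonneg hw) _) hB
  have h1 : Pw (w2 w) (fun x => (P x.1 ∧ Q x.2) ∧ B x)
      = ∑ ω0, (if Q ω0 then w ω0 * Pw w (fun ω => P ω ∧ B (ω, ω0)) else 0) := by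
    unfold Pw w2
    rw [← Finset.univ_product_univ, Finset.sum_product_right]
    refine Finset.sum_congr rfl fun b _ => ?_
    by_cases hb : Q b
    · rw [if_pos hb, Finset.mul_sum]
      refine Finset.sum_congr rfl fun a _ => ?_
      by_cases ha : P a <;> by_cases hab : B (a, b) <;> simp [ha, hb, hab, mul_comm]
    · rw [if_neg hb]
      refine Finset.sum_eq_zero fun a _ => ?_
      simp [hb]
  obtain ⟨ω1, hω1, hQ1⟩ := Pw_exists w (lt_of_lt_of_le hm hQ)
  have h2 : Pw w Q * (δ / m) < ∑ ω0, (if Q ω0 then w ω0 * Pw w (fun ω => P ω ∧ B (ω, ω0)) else 0) := by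
    unfold Pw
    rw [Finset.sum_mul]
    refine Finset.sum_lt_sum (fun ω0 _ => ?_) ⟨ω1, Finset.mem_univ _, ?_⟩
    · by_cases hb : Q ω0
      · rw [if_pos hb, if_pos hb]
        by_cases h0 : w ω0 = 0
        · simp [h0]
        · exact mul_le_mul_of_nonneg_left (hc ω0 h0 hb).le (hw _)
      · simp [hb]
    · rw [if_pos hQ1, if_pos hQ1]
      exact mul_lt_mul_of_pos_left (hc ω1 hω1 hQ1) (lt_of_le_of_ne (hw _) (Ne.symm hω1))
  have h3 : m * (δ / m) ≤ Pw w Q * (δ / m) := mul_le_mul_of_nonneg_right hQ (by positivity)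
  have h4 : m * (δ / m) = δ := by field_simp
  rw [← h1] at h2
  linarith

/-- the subcell `i` -/
def Sc (T : Ω → ℝ) (x0 h : ℝ) (i : ℕ) (ω : Ω) : Prop := x0 + i * h ≤ T ω ∧ T ω < x0 + (i + 1) * h

/-- the bad pairs -/
def Bad2 (p : Seminorm ℝ E) (T : Ω → ℝ) (A : Ω → E) (σ : E) (h r : ℝ) (x : Ω × Ω) : Prop :=
  h ≤ |T x.1 - T x.2| ∧ |T x.1 - T x.2| ≤ 5 * h ∧ r < p (A x.1 - A x.2 - (T x.1 - T x.2) • σ)

/-- the bad quadruples -/
def Bad4 (p : Seminorm ℝ E) (T : Ω → ℝ) (A : Ω → E) (σ : E) (h r : ℝ) (x : (Ω × Ω) × (Ω × Ω)) : Prop :=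
  h ≤ |T x.1.1 - T x.1.2 - (T x.2.1 - T x.2.2)| ∧ |T x.1.1 - T x.1.2 - (T x.2.1 - T x.2.2)| ≤ 5 * h ∧
    r < p (A x.1.1 - A x.1.2 - (A x.2.1 - A x.2.2) - (T x.1.1 - T x.1.2 - (T x.2.1 - T x.2.2)) • σ)

/-- LEMMA A with `σ = 0` -/
theorem lemA0 (p : Seminorm ℝ E) (w : Ω → ℝ) (hw : ∀ ω, 0 ≤ w ω) (T : Ω → ℝ) (A : Ω → E)
    (x0 h r δ : ℝ) (n : ℕ) (hn : 4 ≤ n) (hh : 0 < h) (hr : 0 ≤ r) (hδ : 256 * (n : ℝ) ^ 4 * δ < 1)
    (hT : ∀ ω, w ω ≠ 0 → ∃ i < n, Sc T x0 h i ω)
    (hu1 : ∀ i < n, 1 / (2 * (n : ℝ)) ≤ Pw w (Sc T x0 h i))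
    (h2 : Pw (w2 w) (Bad2 p T A 0 h r) ≤ δ) (h4 : Pw (w4 w) (Bad4 p T A 0 h r) ≤ δ) :
    ∃ a o : E, Pw w (fun ω => 48 * r < p (A ω - T ω • a - o)) ≤ 2 * (n : ℝ) ^ 2 * δ := by
  classical
  have hn0 : (0 : ℝ) < n := by
    have : 0 < n := by omega
    exact_mod_cast this
  have hn1 : (1 : ℝ) ≤ n := by
    have : 1 ≤ n := by omega
    exact_mod_cast this
  have hδ0 : 0 ≤ δ := le_trans (Pw_nonneg _ (w2_nonneg hw) _) h2
  -- partners
  have hpart : ∀ i < n, ∃ i' < n, (i' = i + 2 ∨ i = i' + 2) := by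
    intro i hi
    by_cases hc : i + 2 < n
    · exact ⟨i + 2, hc, Or.inl rfl⟩
    · exact ⟨i - 2, by omega, Or.inr (by omega)⟩
  -- centres
  have hcen : ∀ i < n, ∃ f : E, Pw w (fun ω => Sc T x0 h i ω ∧ r < p (A ω - f)) ≤ 2 * n * δ := by
    intro i hi
    obtain ⟨i', hi', hii⟩ := hpart i hi
    have hm : (0 : ℝ) < 1 / (2 * n) := by positivity
    obtain ⟨ω0, h00, h01, h02⟩ := exists_sec w hw (Sc T x0 h i) (Sc T x0 h i')
      (Bad2 p T A 0 h r) δ (1 / (2 * n)) hm (hu1 i' hi')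
      (le_trans (Pw_mono _ (w2_nonneg hw) (fun x _ hx => hx.2)) h2)
    refine ⟨A ω0, ?_⟩
    have he : δ / (1 / (2 * (n : ℝ))) = 2 * n * δ := by field_simp
    rw [he] at h02
    refine le_trans (Pw_mono w hw ?_) h02
    rintro ω _ ⟨hω, hr'⟩
    refine ⟨hω, ?_, ?_, ?_⟩
    · rcases hii with hii | hii
      · have hc : ((i' : ℕ) : ℝ) = i + 2 := by exact_mod_cast hii
        rw [le_abs]
        right
        have e1 := hω.2
        have e2 := h01.1
        rw [hc] at e2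
        show h ≤ -(T ω - T ω0)
        linarith
      · have hc : ((i : ℕ) : ℝ) = i' + 2 := by exact_mod_cast hii
        rw [le_abs]
        left
        have e1 := hω.1
        have e2 := h01.2
        rw [hc] at e1
        show h ≤ T ω - T ω0
        linarith
    · rw [abs_le]
      show -(5 * h) ≤ T ω - T ω0 ∧ T ω - T ω0 ≤ 5 * h
      rcases hii with hii | hii
      · have hc : ((i' : ℕ) : ℝ) = i + 2 := by exact_mod_cast hii
        have e1 := hω.1
        have e2 := h01.2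
        have e3 := hω.2
        have e4 := h01.1
        rw [hc] at e2 e4
        constructor <;> linarith
      · have hc : ((i : ℕ) : ℝ) = i' + 2 := by exact_mod_cast hii
        have e1 := hω.1
        have e2 := h01.2
        have e3 := hω.2
        have e4 := h01.1
        rw [hc] at e1 e3
        constructor <;> linarith
    · show r < p (A ω - A ω0 - (T ω - T ω0) • (0 : E))
      rw [smul_zero, sub_zero]
      exact hr'
  choose! f hf using hcen
  -- the good part of a subcell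
  set G : ℕ → Ω → Prop := fun i ω => Sc T x0 h i ω ∧ p (A ω - f i) ≤ r with hG
  have hGm : ∀ i < n, 1 / (4 * (n : ℝ)) ≤ Pw w (G i) := by
    intro i hi
    have e1 : Pw w (Sc T x0 h i) ≤ Pw w (G i) + Pw w (fun ω => Sc T x0 h i ω ∧ r < p (A ω - f i)) := by
      refine le_trans (Pw_mono w hw ?_) (Pw_or w hw (G i) (fun ω => Sc T x0 h i ω ∧ r < p (A ω - f i)))
      intro ω _ hω
      by_cases hc : p (A ω - f i) ≤ r
      · exact Or.inl ⟨hω, hc⟩
      · exact Or.inr ⟨hω, not_le.mp hc⟩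
    have e2 := hu1 i hi
    have e3 := hf i hi
    have e4 : 2 * (n : ℝ) * δ ≤ 1 / (4 * n) := by
      rw [le_div_iff₀ (by positivity)]
      have e5 : (n : ℝ) ^ 2 ≤ (n : ℝ) ^ 4 := pow_le_pow_right₀ hn1 (by norm_num)
      have e6 : (n : ℝ) ^ 2 * δ ≤ (n : ℝ) ^ 4 * δ := mul_le_mul_of_nonneg_right e5 hδ0
      have e7 : 2 * (n : ℝ) * δ * (4 * n) = 8 * ((n : ℝ) ^ 2 * δ) := by ring
      rw [e7]
      nlinarith
    have e8 : 1 / (2 * (n : ℝ)) = 1 / (4 * n) + 1 / (4 * n) := by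
      field_simp
      norm_num
    linarith
  -- quadruples
  have hquad : ∀ i j k m : ℕ, i < n → j < n → k < n → m < n → i + m = j + k + 3 →
      p (f i + f m - f j - f k) ≤ 5 * r := by
    intro i j k m hi hj hk hm he
    have e1 : δ < Pw (w4 w) (fun x => (G i x.1.1 ∧ G j x.1.2) ∧ (G k x.2.1 ∧ G m x.2.2)) := by
      rw [Pw_w4]
      have e2 := hGm i hi
      have e3 := hGm j hj
      have e4 := hGm k hk
      have e5 := hGm m hm
      have e0 : (0 : ℝ) < 1 / (4 * n) := by positivity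
      have e6 : 1 / (4 * (n : ℝ)) * (1 / (4 * n)) ≤ Pw w (G i) * Pw w (G j) :=
        mul_le_mul e2 e3 e0.le (le_trans e0.le e2)
      have e7 : 1 / (4 * (n : ℝ)) * (1 / (4 * n)) ≤ Pw w (G k) * Pw w (G m) :=
        mul_le_mul e4 e5 e0.le (le_trans e0.le e4)
      have e8 : 1 / (4 * (n : ℝ)) * (1 / (4 * n)) * (1 / (4 * (n : ℝ)) * (1 / (4 * n)))
          ≤ Pw w (G i) * Pw w (G j) * (Pw w (G k) * Pw w (G m)) :=
        mul_le_mul e6 e7 (by positivity) (le_trans (by positivity) e6)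
      refine lt_of_lt_of_le ?_ e8
      have e9 : 1 / (4 * (n : ℝ)) * (1 / (4 * n)) * (1 / (4 * (n : ℝ)) * (1 / (4 * n)))
          = 1 / (256 * (n : ℝ) ^ 4) := by
        field_simp
        norm_num
      rw [e9, lt_div_iff₀ (by positivity)]
      linarith
    obtain ⟨x, -, ⟨⟨hx1, hx2⟩, hx3, hx4⟩, hx5⟩ := exists_good (w4 w) (w4_nonneg hw) _ _ (lt_of_le_of_lt h4 e1)
    have hc : ((i : ℕ) : ℝ) + m = j + k + 3 := by exact_mod_cast he
    have t1 : h < T x.1.1 - T x.1.2 - (T x.2.1 - T x.2.2) ∧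
        T x.1.1 - T x.1.2 - (T x.2.1 - T x.2.2) < 5 * h := by
      have a1 := hx1.1.1
      have a2 := hx1.1.2
      have a3 := hx2.1.1
      have a4 := hx2.1.2
      have a5 := hx3.1.1
      have a6 := hx3.1.2
      have a7 := hx4.1.1
      have a8 := hx4.1.2
      have b1 : ((i : ℝ) + m) * h = (j + k + 3) * h := by rw [hc]
      constructor <;> nlinarith
    have s1 : p (A x.1.1 - A x.1.2 - (A x.2.1 - A x.2.2)) ≤ r := by
      by_contra hcon
      push Not at hcon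
      apply hx5
      refine ⟨?_, ?_, ?_⟩
      · exact le_trans t1.1.le (le_abs_self _)
      · rw [abs_of_nonneg (by linarith [t1.1])]
        exact t1.2.le
      · rw [smul_zero, sub_zero]
        exact hcon
    have s2 : f i + f m - f j - f k = (A x.1.1 - A x.1.2 - (A x.2.1 - A x.2.2)) - (A x.1.1 - f i)
        + (A x.1.2 - f j) + (A x.2.1 - f k) - (A x.2.2 - f m) := by abel
    rw [s2]
    have q1 := map_sub_le_add p ((A x.1.1 - A x.1.2 - (A x.2.1 - A x.2.2)) - (A x.1.1 - f i)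
        + (A x.1.2 - f j) + (A x.2.1 - f k)) (A x.2.2 - f m)
    have q2 := map_add_le_add p ((A x.1.1 - A x.1.2 - (A x.2.1 - A x.2.2)) - (A x.1.1 - f i)
        + (A x.1.2 - f j)) (A x.2.1 - f k)
    have q3 := map_add_le_add p ((A x.1.1 - A x.1.2 - (A x.2.1 - A x.2.2)) - (A x.1.1 - f i))
        (A x.1.2 - f j)
    have q4 := map_sub_le_add p (A x.1.1 - A x.1.2 - (A x.2.1 - A x.2.2)) (A x.1.1 - f i)
    have r1 := hx1.2
    have r2 := hx2.2
    have r3 := hx3.2
    have r4 := hx4.2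
    linarith
  -- additivity
  have hqa : QA p (n - 1) (10 * r) f := by
    intro i j k m hi hj hk hm he
    by_cases hs : 3 ≤ i + m
    · -- a pair with sum `i + m - 3`
      obtain ⟨a, b, ha, hb, hab⟩ : ∃ a b : ℕ, a < n ∧ b < n ∧ a + b + 3 = i + m := by
        by_cases hc : i + m - 3 < n
        · exact ⟨i + m - 3, 0, hc, by omega, by omega⟩
        · exact ⟨n - 1, i + m - 3 - (n - 1), by omega, by omega, by omega⟩
      have e1 := hquad i a b m (by omega) ha hb (by omega) (by omega)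
      have e2 := hquad j a b k (by omega) ha hb (by omega) (by omega)
      have e3 : f i + f m - f j - f k = (f i + f m - f a - f b) - (f j + f k - f a - f b) := by abel
      rw [e3]
      have e4 := map_sub_le_add p (f i + f m - f a - f b) (f j + f k - f a - f b)
      linarith
    · obtain ⟨a, b, ha, hb, hab⟩ : ∃ a b : ℕ, a < n ∧ b < n ∧ a + b = i + m + 3 := by
        by_cases hc : i + m + 3 < n
        · exact ⟨i + m + 3, 0, hc, by omega, by omega⟩
        · exact ⟨n - 1, i + m + 3 - (n - 1), by omega, by omega, by omega⟩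
      have e1 := hquad a i m b ha (by omega) (by omega) hb (by omega)
      have e2 := hquad a j k b ha (by omega) (by omega) hb (by omega)
      have e3 : f i + f m - f j - f k = (f a + f b - f j - f k) - (f a + f b - f i - f m) := by abel
      rw [e3]
      have e4 := map_sub_le_add p (f a + f b - f j - f k) (f a + f b - f i - f m)
      linarith
  have hN1 : 1 ≤ n - 1 := by omega
  have hhu := hu p (n - 1) hN1 (10 * r) f hqa
  set N : ℕ := n - 1 with hNdef
  have hN0 : (N : ℝ) ≠ 0 := by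
    have : 0 < N := by omega
    positivity
  set lam : E := (1 / (N : ℝ)) • (f N - f 0) with hlam
  have hfl : ∀ i ≤ N, p (f i - f 0 - (i : ℝ) • lam) ≤ 30 * r := by
    intro i hi
    have e1 := hhu i hi
    have e2 : ((i : ℝ) / N) • (f N - f 0) = (i : ℝ) • lam := by
      rw [hlam, smul_smul]
      congr 1
      ring
    rw [e2] at e1
    linarith
  -- the size of the slope
  have hlam2 : p lam ≤ 17 * r := by
    have e1 : δ < Pw (w2 w) (fun x => G 2 x.1 ∧ G 0 x.2) := by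
      rw [Pw_w2]
      have e2 := hGm 2 (by omega)
      have e3 := hGm 0 (by omega)
      have e0 : (0 : ℝ) < 1 / (4 * n) := by positivity
      have e6 : 1 / (4 * (n : ℝ)) * (1 / (4 * n)) ≤ Pw w (G 2) * Pw w (G 0) :=
        mul_le_mul e2 e3 e0.le (le_trans e0.le e2)
      refine lt_of_lt_of_le ?_ e6
      have e9 : 1 / (4 * (n : ℝ)) * (1 / (4 * n)) = 1 / (16 * (n : ℝ) ^ 2) := by
        field_simp
        norm_num
      rw [e9, lt_div_iff₀ (by positivity)]
      have e5 : (n : ℝ) ^ 2 ≤ (n : ℝ) ^ 4 := pow_le_pow_right₀ hn1 (by norm_num)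
      have e6 : (n : ℝ) ^ 2 * δ ≤ (n : ℝ) ^ 4 * δ := mul_le_mul_of_nonneg_right e5 hδ0
      nlinarith
    obtain ⟨x, -, ⟨hx1, hx2⟩, hx5⟩ := exists_good (w2 w) (w2_nonneg hw) _ _ (lt_of_le_of_lt h2 e1)
    have a1 := hx1.1.1
    have a2 := hx1.1.2
    have a3 := hx2.1.1
    have a4 := hx2.1.2
    push_cast at a1 a2 a3 a4
    have s1 : p (A x.1 - A x.2) ≤ r := by
      by_contra hcon
      push Not at hcon
      apply hx5
      refine ⟨?_, ?_, ?_⟩
      · exact le_trans (by linarith) (le_abs_self _)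
      · rw [abs_of_nonneg (by linarith)]
        linarith
      · rw [smul_zero, sub_zero]
        exact hcon
    have s2 : f 2 - f 0 = (A x.1 - A x.2) - (A x.1 - f 2) + (A x.2 - f 0) := by abel
    have s3 : p (f 2 - f 0) ≤ 3 * r := by
      rw [s2]
      have q1 := map_add_le_add p ((A x.1 - A x.2) - (A x.1 - f 2)) (A x.2 - f 0)
      have q2 := map_sub_le_add p (A x.1 - A x.2) (A x.1 - f 2)
      have r1 := hx1.2
      have r2 := hx2.2
      linarith
    have s4 := hfl 2 (by omega)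
    have s5 : (2 : ℝ) • lam = (f 2 - f 0) - (f 2 - f 0 - ((2 : ℕ) : ℝ) • lam) := by
      push_cast
      abel
    have s6 : p ((2 : ℝ) • lam) = 2 * p lam := by
      rw [map_smul_eq_mul]
      norm_num
    have s7 := map_sub_le_add p (f 2 - f 0) (f 2 - f 0 - ((2 : ℕ) : ℝ) • lam)
    rw [← s5, s6] at s7
    linarith
  -- conclusion
  refine ⟨(1 / h) • lam, f 0 - (x0 / h) • lam, ?_⟩
  have hfin : Pw w (fun ω => 48 * r < p (A ω - T ω • ((1 / h) • lam) - (f 0 - (x0 / h) • lam)))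
      ≤ ∑ i ∈ range n, Pw w (fun ω => Sc T x0 h i ω ∧ r < p (A ω - f i)) := by
    have e1 : Pw w (fun ω => 48 * r < p (A ω - T ω • ((1 / h) • lam) - (f 0 - (x0 / h) • lam)))
        ≤ Pw w (fun ω => ∃ i ∈ range n, Sc T x0 h i ω ∧ r < p (A ω - f i)) := by
      refine Pw_mono w hw ?_
      intro ω h0 hω
      obtain ⟨i, hi, hS⟩ := hT ω h0
      refine ⟨i, mem_range.mpr hi, hS, ?_⟩
      by_contra hcon
      push Not at hcon
      refine absurd hω (not_lt.mpr ?_)
      set t : ℝ := (T ω - x0 - i * h) / h with ht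
      have t0 : 0 ≤ t := div_nonneg (by linarith [hS.1]) hh.le
      have t1 : t ≤ 1 := by
        rw [ht, div_le_one hh]
        have := hS.2
        linarith
      have e2 : A ω - T ω • ((1 / h) • lam) - (f 0 - (x0 / h) • lam)
          = (A ω - f i) + (f i - f 0 - (i : ℝ) • lam) - t • lam := by
        have e3 : T ω • ((1 / h) • lam) = (x0 / h) • lam + (i : ℝ) • lam + t • lam := by
          rw [smul_smul, ← add_smul, ← add_smul]
          congr 1
          rw [ht]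
          field_simp
          ring
        rw [e3]
        abel
      rw [e2]
      have q1 := map_sub_le_add p ((A ω - f i) + (f i - f 0 - (i : ℝ) • lam)) (t • lam)
      have q2 := map_add_le_add p (A ω - f i) (f i - f 0 - (i : ℝ) • lam)
      have q3 : p (t • lam) ≤ 17 * r := by
        rw [map_smul_eq_mul, Real.norm_eq_abs, abs_of_nonneg t0]
        have : t * p lam ≤ 1 * p lam := mul_le_mul_of_nonneg_right t1 (apply_nonneg p _)
        linarith
      have q4 := hfl i (by omega)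
      linarith
    refine le_trans e1 ?_
    have e2 : ∀ s : Finset ℕ, Pw w (fun ω => ∃ i ∈ s, Sc T x0 h i ω ∧ r < p (A ω - f i))
        ≤ ∑ i ∈ s, Pw w (fun ω => Sc T x0 h i ω ∧ r < p (A ω - f i)) := by
      intro s
      induction s using Finset.induction_on with
      | empty => simp [Pw]
      | insert a s ha ih =>
        rw [Finset.sum_insert ha]
        refine le_trans (Pw_mono w hw ?_) (le_trans (Pw_or w hw
          (fun ω => Sc T x0 h a ω ∧ r < p (A ω - f a))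
          (fun ω => ∃ i ∈ s, Sc T x0 h i ω ∧ r < p (A ω - f i))) (by linarith))
        rintro ω _ ⟨i, hi, hx⟩
        rcases Finset.mem_insert.mp hi with rfl | hi
        · exact Or.inl hx
        · exact Or.inr ⟨i, hi, hx⟩
    exact e2 _
  refine le_trans hfin ?_
  refine le_trans (Finset.sum_le_sum (fun i hi => hf i (mem_range.mp hi))) ?_
  rw [Finset.sum_const, card_range, nsmul_eq_mul]
  have : (n : ℝ) * (2 * n * δ) = 2 * (n : ℝ) ^ 2 * δ := by ring
  rw [this]

/-- **LEMMA A** -/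
theorem lemA (p : Seminorm ℝ E) (w : Ω → ℝ) (hw : ∀ ω, 0 ≤ w ω) (T : Ω → ℝ) (A : Ω → E) (σ : E)
    (x0 h r δ : ℝ) (n : ℕ) (hn : 4 ≤ n) (hh : 0 < h) (hr : 0 ≤ r) (hδ : 256 * (n : ℝ) ^ 4 * δ < 1)
    (hT : ∀ ω, w ω ≠ 0 → ∃ i < n, Sc T x0 h i ω)
    (hu1 : ∀ i < n, 1 / (2 * (n : ℝ)) ≤ Pw w (Sc T x0 h i))
    (h2 : Pw (w2 w) (Bad2 p T A σ h r) ≤ δ) (h4 : Pw (w4 w) (Bad4 p T A σ h r) ≤ δ) :
    ∃ a o : E, Pw w (fun ω => 48 * r < p (A ω - T ω • a - o)) ≤ 2 * (n : ℝ) ^ 2 * δ := by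
  obtain ⟨a, o, hao⟩ := lemA0 p w hw T (fun ω => A ω - T ω • σ) x0 h r δ n hn hh hr hδ hT hu1
    (by
      refine le_trans (Pw_mono _ (w2_nonneg hw) ?_) h2
      rintro x _ ⟨b1, b2, b3⟩
      refine ⟨b1, b2, ?_⟩
      have e : A x.1 - T x.1 • σ - (A x.2 - T x.2 • σ) - (T x.1 - T x.2) • (0 : E)
          = A x.1 - A x.2 - (T x.1 - T x.2) • σ := by
        rw [smul_zero, sub_smul]
        abel
      rw [← e]
      exact b3)
    (by
      refine le_trans (Pw_mono _ (w4_nonneg hw) ?_) h4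
      rintro x _ ⟨b1, b2, b3⟩
      refine ⟨b1, b2, ?_⟩
      have e : A x.1.1 - T x.1.1 • σ - (A x.1.2 - T x.1.2 • σ)
          - (A x.2.1 - T x.2.1 • σ - (A x.2.2 - T x.2.2 • σ))
          - (T x.1.1 - T x.1.2 - (T x.2.1 - T x.2.2)) • (0 : E)
          = A x.1.1 - A x.1.2 - (A x.2.1 - A x.2.2)
            - (T x.1.1 - T x.1.2 - (T x.2.1 - T x.2.2)) • σ := by
        rw [smul_zero, sub_smul, sub_smul, sub_smul]
        abel
      rw [← e]
      exact b3)
  refine ⟨σ + a, o, le_trans (Pw_mono w hw ?_) hao⟩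
  intro ω _ hω
  have e : A ω - T ω • σ - T ω • a - o = A ω - T ω • (σ + a) - o := by
    rw [smul_add]
    abel
  show 48 * r < p (A ω - T ω • σ - T ω • a - o)
  rw [e]
  exact hω

end Pool.Agent.Helper58.VW
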