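import Pool.Agent.Helper99.VW.Prs
import Pool.Agent.Helper58.VW.Exch

/-!
# Small vectors of a star and the tubes of the subcells ((2.1) ==> `TubeAt` at level `l + D`, ns_notes_6d)

`mu` a finite law, `K` a label (the star), `T` a real variable, `A` a vector. `sv` : the law of the small vectors of
level `l` of the star `k` (two independent points of the star in one cell of level `l`, the difference of `T` is
comparable with `h = 2^-(l+D)`). If for every star the differences of the slopes of two independent small vectors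
have `p k <= r0` up to probability `κ1`, then the subcells of level `l + D` are tubes with ONE slope per star.
-/

set_option autoImplicit false

namespace Pool.Agent.Helper58.VW

open Finset Pool.Agent.Helper69.RK Pool.Agent.Helper61.GL Pool.Agent.Helper46.WF
open Pool.Agent.Helper99.VW (KC Pos Nu Wn Sb cw_cw pos_rg wn_iff Pw_tower cw_congr' sum_push cw_ind)
open Pool.Agent.Helper31.EC (amw amw_nonneg amw_supp amw_push_fst ms ms_pos pr_eq_ms)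

variable {Ω κ : Type} [Fintype Ω] {E : Type*} [AddCommGroup E] [Module ℝ E]

/-- the slope of a pair of points -/
noncomputable def sg (T : Ω → ℝ) (A : Ω → E) (x : Ω × Ω) : E := (T x.1 - T x.2)⁻¹ • (A x.1 - A x.2)

/-- the difference of `T` is comparable with `h` -/
def Rg (T : Ω → ℝ) (h : ℝ) (x : Ω × Ω) : Prop := h / 4 ≤ |T x.1 - T x.2| ∧ |T x.1 - T x.2| ≤ 4 * h

/-- the law of two independent points of a star in one cell of level `l` -/
noncomputable def nu2 (μ : Ω → ℝ) (K : Ω → κ) (T : Ω → ℝ) (l : ℕ) : Ω × Ω → ℝ := amw μ μ (KC K T l) (KC K T l)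

open Classical in
/-- the law of the small vectors of level `l` of the star `k` -/
noncomputable def sv (μ : Ω → ℝ) (K : Ω → κ) (T : Ω → ℝ) (l : ℕ) (h : ℝ) (k : κ) (x : Ω × Ω) : ℝ :=
  if K x.1 = k ∧ Rg T h x then nu2 μ K T l x / Pw (nu2 μ K T l) (fun y => K y.1 = k ∧ Rg T h y) else 0

theorem nu2_nonneg (μ : Ω → ℝ) (hμ : ∀ ω, 0 ≤ μ ω) (K : Ω → κ) (T : Ω → ℝ) (l : ℕ) (x : Ω × Ω) :
    0 ≤ nu2 μ K T l x := amw_nonneg μ μ _ _ hμ hμ x

theorem nu2_sum (μ : Ω → ℝ) (hμ : ∀ ω, 0 ≤ μ ω) (hm : ∑ ω, μ ω = 1) (K : Ω → κ) (T : Ω → ℝ) (l : ℕ) :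
    ∑ x, nu2 μ K T l x = 1 := by
  have hf : push Prod.fst (nu2 μ K T l) = μ := amw_push_fst μ μ _ _ (fun _ => rfl) hμ
  rw [sum_push Prod.fst (nu2 μ K T l), hf, hm]

theorem nu2_eq (μ : Ω → ℝ) (K : Ω → κ) (T : Ω → ℝ) (l : ℕ) (x : Ω × Ω) :
    nu2 μ K T l x = μ x.1 * cw μ (KC K T l) x.1 x.2 := by
  rw [cw_ind, pr_eq_ms]
  show e1_ind (KC K T l x.1 = KC K T l x.2) * (μ x.1 * μ x.2 / ms μ (KC K T l) (KC K T l x.1)) = _
  by_cases h : KC K T l x.1 = KC K T l x.2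
  · rw [e1_ind_pos h, e1_ind_pos h.symm]
    ring
  · rw [e1_ind_neg h, e1_ind_neg (fun h' => h h'.symm)]
    ring

theorem sv_nonneg (μ : Ω → ℝ) (hμ : ∀ ω, 0 ≤ μ ω) (K : Ω → κ) (T : Ω → ℝ) (l : ℕ) (h : ℝ) (k : κ) (x : Ω × Ω) :
    0 ≤ sv μ K T l h k x := by
  unfold sv
  split_ifs
  · exact div_nonneg (nu2_nonneg μ hμ K T l x) (Pw_nonneg _ (nu2_nonneg μ hμ K T l) _)
  · exact le_rfl

theorem sv_supp (μ : Ω → ℝ) (K : Ω → κ) (T : Ω → ℝ) (l : ℕ) (h : ℝ) {k : κ} {x : Ω × Ω}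
    (hx : sv μ K T l h k x ≠ 0) : K x.1 = k ∧ K x.2 = k ∧ cl l (T x.1) = cl l (T x.2) ∧ Rg T h x ∧ μ x.1 ≠ 0 ∧
      μ x.2 ≠ 0 := by
  unfold sv at hx
  split_ifs at hx with h1
  · have h2 : nu2 μ K T l x ≠ 0 := by
      intro h0
      rw [h0, zero_div] at hx
      exact hx rfl
    obtain ⟨h3, h4, h5⟩ := amw_supp μ μ _ _ x h2
    obtain ⟨h6, h7⟩ := Prod.ext_iff.mp h3
    have h7' : K x.1 = K x.2 := h7
    exact ⟨h1.1, by rw [← h7', h1.1], h6, h1.2, h4, h5⟩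
  · exact absurd rfl hx

/-- `sv` is the conditional law -/
theorem sv_eq_cw (μ : Ω → ℝ) (K : Ω → κ) (T : Ω → ℝ) (l : ℕ) (h : ℝ) {x : Ω × Ω}
    (hx : Rg T h x) : sv μ K T l h (K x.1) = cw (nu2 μ K T l) (fun y => (K y.1, Rg T h y)) x := by
  classical
  funext y
  have hY : ∀ y : Ω × Ω, ((K y.1, Rg T h y) = (K x.1, Rg T h x)) ↔ (K y.1 = K x.1 ∧ Rg T h y) := by
    intro y
    rw [Prod.mk.injEq]
    constructor
    · rintro ⟨h1, h2⟩
      exact ⟨h1, by rw [h2]; exact hx⟩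
    · rintro ⟨h1, h2⟩
      exact ⟨h1, propext ⟨fun _ => hx, fun _ => h2⟩⟩
  have h1 : pr (nu2 μ K T l) (fun y => (K y.1, Rg T h y)) x = Pw (nu2 μ K T l) (fun y => K y.1 = K x.1 ∧ Rg T h y) := by
    rw [pr_eq_Pw]
    unfold Pw
    refine Finset.sum_congr rfl fun z _ => ?_
    by_cases hz : K z.1 = K x.1 ∧ Rg T h z
    · rw [if_pos ((hY z).mpr hz), if_pos hz]
    · rw [if_neg (fun h' => hz ((hY z).mp h')), if_neg hz]
  unfold sv cw
  rw [h1]
  by_cases hy : K y.1 = K x.1 ∧ Rg T h y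
  · rw [if_pos hy, if_pos ((hY y).mpr hy)]
  · rw [if_neg hy, if_neg (fun h' => hy ((hY y).mp h')), zero_div]

/-- `sv` is a probability or zero -/
theorem sv_sum (μ : Ω → ℝ) (hμ : ∀ ω, 0 ≤ μ ω) (K : Ω → κ) (T : Ω → ℝ) (l : ℕ) (h : ℝ) (k : κ) {x : Ω × Ω}
    (hx : sv μ K T l h k x ≠ 0) : ∑ y, sv μ K T l h k y = 1 := by
  obtain ⟨h1, h2, h3, h4, h5, h6⟩ := sv_supp μ K T l h hx
  rw [← h1, sv_eq_cw μ K T l h h4]
  refine cw_sum _ _ (nu2_nonneg μ hμ K T l) x ?_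
  intro h0
  apply hx
  unfold sv
  rw [h0, zero_div, ite_self]

/-- mass of a set of pairs is the average of the mass of the sections -/
theorem nu2_sec (μ : Ω → ℝ) (K : Ω → κ) (T : Ω → ℝ) (l : ℕ) (B : Ω × Ω → Prop) :
    Pw (nu2 μ K T l) B = ∑ ω, μ ω * Pw (cw μ (KC K T l) ω) (fun ω' => B (ω, ω')) := by
  classical
  unfold Pw
  rw [← Finset.univ_product_univ, Finset.sum_product]
  refine Finset.sum_congr rfl fun a _ => ?_
  rw [Finset.mul_sum]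
  refine Finset.sum_congr rfl fun c _ => ?_
  by_cases h : B (a, c)
  · rw [if_pos h, if_pos h, nu2_eq]
  · rw [if_neg h, if_neg h, mul_zero]

/-- two independent points of a cell -/
theorem nu2_w2 (μ : Ω → ℝ) (hμ : ∀ ω, 0 ≤ μ ω) (K : Ω → κ) (T : Ω → ℝ) (l : ℕ) (B : Ω × Ω → Prop) :
    ∑ ω, μ ω * Pw (w2 (cw μ (KC K T l) ω)) B = Pw (nu2 μ K T l) B := by
  classical
  rw [nu2_sec, ← cw_expect μ hμ (KC K T l) (fun ω => Pw (cw μ (KC K T l) ω) (fun ω' => B (ω, ω')))]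
  refine Finset.sum_congr rfl fun ω _ => ?_
  congr 1
  have h1 : Pw (w2 (cw μ (KC K T l) ω)) B = ∑ a, cw μ (KC K T l) ω a * Pw (cw μ (KC K T l) ω) (fun c => B (a, c)) := by
    unfold Pw w2
    rw [← Finset.univ_product_univ, Finset.sum_product]
    refine Finset.sum_congr rfl fun a _ => ?_
    rw [Finset.mul_sum]
    refine Finset.sum_congr rfl fun c _ => ?_
    by_cases h : B (a, c)
    · rw [if_pos h, if_pos h]
    · rw [if_neg h, if_neg h, mul_zero]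
  rw [h1]
  refine Finset.sum_congr rfl fun a _ => ?_
  by_cases h0 : cw μ (KC K T l) ω a = 0
  · rw [h0, zero_mul, zero_mul]
  · obtain ⟨h2, -⟩ := cw_ne_zero μ _ h0
    rw [cw_congr' μ (KC K T l) h2]

omit [Fintype Ω] in
/-- the slope of a small vector -/
theorem sg_bound (T : Ω → ℝ) (A : Ω → E) {h : ℝ} (hh : 0 < h) {x : Ω × Ω} (hx : Rg T h x) (p : Seminorm ℝ E) (σ : E) :
    p (A x.1 - A x.2 - (T x.1 - T x.2) • σ) ≤ 4 * h * p (sg T A x - σ) := by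
  have h1 : T x.1 - T x.2 ≠ 0 := by
    intro h0
    have := hx.1
    rw [h0, abs_zero] at this
    linarith
  have h2 : A x.1 - A x.2 - (T x.1 - T x.2) • σ = (T x.1 - T x.2) • (sg T A x - σ) := by
    unfold sg
    rw [smul_sub, smul_smul, mul_inv_cancel₀ h1, one_smul]
  rw [h2, map_smul_eq_mul, Real.norm_eq_abs]
  exact mul_le_mul_of_nonneg_right hx.2 (apply_nonneg p _)

/-- ONE SLOPE PER STAR for the small vectors -/
theorem exists_slope (μ : Ω → ℝ) (hμ : ∀ ω, 0 ≤ μ ω) (K : Ω → κ) (T : Ω → ℝ) (A : Ω → E) (p : κ → Seminorm ℝ E) (l : ℕ)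
    (h : ℝ) {r0 κ1 R : ℝ} (hR : 0 ≤ R)
    (h21 : ∀ k, Pw (w2 (sv μ K T l h k)) (fun x => r0 < p k (sg T A x.1 - sg T A x.2)) ≤ κ1)
    (hsl : ∀ k x, sv μ K T l h k x ≠ 0 → p k (sg T A x) ≤ R) :
    ∃ σ : κ → E, (∀ k, p k (σ k) ≤ R) ∧ ∀ k x, sv μ K T l h k x ≠ 0 →
      Pw (sv μ K T l h k) (fun x => r0 < p k (sg T A x - σ k)) ≤ κ1 := by
  classical
  have key : ∀ k, ∃ s : E, p k s ≤ R ∧ ∀ x, sv μ K T l h k x ≠ 0 →
      Pw (sv μ K T l h k) (fun x => r0 < p k (sg T A x - s)) ≤ κ1 := by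
    intro k
    by_cases hk : ∃ x, sv μ K T l h k x ≠ 0
    · obtain ⟨x0, hx0⟩ := hk
      have h1 : Pw (sv μ K T l h k) (fun _ => True) = 1 := by
        unfold Pw
        simp only [if_true]
        exact sv_sum μ hμ K T l h k hx0
      obtain ⟨x1, h2, -, h3⟩ := exists_sec (sv μ K T l h k) (sv_nonneg μ hμ K T l h k) (fun _ => True) (fun _ => True)
        (fun x => r0 < p k (sg T A x.1 - sg T A x.2)) κ1 1 one_pos (le_of_eq h1.symm) (by
          refine le_trans (Pw_mono _ (w2_nonneg (sv_nonneg μ hμ K T l h k)) ?_) (h21 k)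
          rintro x - ⟨-, h⟩
          exact h)
      refine ⟨sg T A x1, hsl k x1 h2, fun _ _ => ?_⟩
      rw [div_one] at h3
      refine le_trans (Pw_mono _ (sv_nonneg μ hμ K T l h k) ?_) h3
      intro x _ hx
      exact ⟨trivial, hx⟩
    · push Not at hk
      exact ⟨0, by rw [map_zero]; exact hR, fun x hx => absurd (hk x) hx⟩
  choose σ h1 h2 using key
  exact ⟨σ, h1, h2⟩

/-- the bad pairs are rare -/
theorem bad_nu2 (μ : Ω → ℝ) (hμ : ∀ ω, 0 ≤ μ ω) (hm : ∑ ω, μ ω = 1) (K : Ω → κ) (T : Ω → ℝ) (A : Ω → E)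
    (p : κ → Seminorm ℝ E) (l : ℕ) {h : ℝ} (hh : 0 < h) {r0 κ1 r : ℝ} (hκ1 : 0 ≤ κ1) (hr : 4 * h * r0 ≤ r) (σ : κ → E)
    (hσ : ∀ k x, sv μ K T l h k x ≠ 0 → Pw (sv μ K T l h k) (fun x => r0 < p k (sg T A x - σ k)) ≤ κ1) :
    Pw (nu2 μ K T l) (fun x => Rg T h x ∧ r < p (K x.1) (A x.1 - A x.2 - (T x.1 - T x.2) • σ (K x.1))) ≤ κ1 := by
  classical
  rw [Pw_tower _ (nu2_nonneg μ hμ K T l) (fun y => (K y.1, Rg T h y))]
  have h1 : κ1 = ∑ x, nu2 μ K T l x * κ1 := by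
    rw [← Finset.sum_mul, nu2_sum μ hμ hm, one_mul]
  rw [h1]
  refine Finset.sum_le_sum fun x _ => ?_
  by_cases h0 : nu2 μ K T l x = 0
  · rw [h0, zero_mul, zero_mul]
  refine mul_le_mul_of_nonneg_left ?_ (nu2_nonneg μ hμ K T l x)
  by_cases hx : Rg T h x
  · rw [← sv_eq_cw μ K T l h hx]
    have h3 : sv μ K T l h (K x.1) x ≠ 0 := by
      rw [sv_eq_cw μ K T l h hx]
      unfold cw
      rw [if_pos rfl]
      exact div_ne_zero h0 (e1_pr_pos _ _ (nu2_nonneg μ hμ K T l) x h0).ne'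
    refine le_trans (Pw_mono _ (sv_nonneg μ hμ K T l h _) ?_) (hσ _ x h3)
    rintro y hy ⟨h4, h5⟩
    obtain ⟨h6, -⟩ := sv_supp μ K T l h hy
    rw [h6] at h5
    by_contra hcon
    push Not at hcon
    have h7 := sg_bound T A hh h4 (p (K x.1)) (σ (K x.1))
    have h8 : 4 * h * p (K x.1) (sg T A y - σ (K x.1)) ≤ 4 * h * r0 := mul_le_mul_of_nonneg_left hcon (by positivity)
    linarith
  · refine le_trans (le_of_eq ?_) hκ1
    unfold Pw
    refine Finset.sum_eq_zero fun y _ => ?_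
    by_cases hy : cw (nu2 μ K T l) (fun y => (K y.1, Rg T h y)) x y = 0
    · rw [hy, ite_self]
    · obtain ⟨h2, -⟩ := cw_ne_zero _ _ hy
      have h3 : Rg T h y = Rg T h x := (Prod.mk.inj h2).2
      rw [if_neg]
      rintro ⟨h4, -⟩
      rw [h3] at h4
      exact hx h4

/-- the probability of a subcell -/
theorem nu_sub {w : Ω → ℝ} {S : Ω → ℝ} {N : ℕ} (h : Nu w S N) {u : ℕ} (hu : u < N) :
    1 / (2 * (N : ℝ)) ≤ Pw w (Sb S u) := by
  have hN : (0 : ℝ) < N := by exact_mod_cast h.pos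
  have h1 : ∑ i ∈ range 8, Pw w (Wn S (8 * u + i)) ≤ Pw w (Sb S u) := by
    classical
    unfold Pw
    rw [Finset.sum_comm]
    refine Finset.sum_le_sum fun ω _ => ?_
    have h2 : ∀ i ∈ range 8, ∀ j ∈ range 8, Wn S (8 * u + i) ω → Wn S (8 * u + j) ω → i = j := by
      intro i _ j _ h3 h4
      have a1 := h3.1
      have a2 := h3.2
      have a3 := h4.1
      have a4 := h4.2
      push_cast at a1 a2 a3 a4
      have b1 : (i : ℝ) < j + 1 := by linarith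
      have b2 : (j : ℝ) < i + 1 := by linarith
      have c1 : i < j + 1 := by exact_mod_cast b1
      have c2 : j < i + 1 := by exact_mod_cast b2
      omega
    by_cases hex : ∃ i ∈ range 8, Wn S (8 * u + i) ω
    · obtain ⟨i, hi, hW⟩ := hex
      rw [Finset.sum_eq_single_of_mem i hi (fun j hj hji => by
        rw [if_neg]
        intro hj2
        exact hji (h2 j hj i hi hj2 hW)), if_pos hW, if_pos]
      have hi8 := mem_range.mp hi
      have a1 := hW.1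
      have a2 := hW.2
      push_cast at a1 a2
      have b1 : (0 : ℝ) ≤ i := by positivity
      have b2 : (i : ℝ) + 1 ≤ 8 := by
        have : i + 1 ≤ 8 := hi8
        exact_mod_cast this
      constructor <;> linarith
    · push Not at hex
      rw [Finset.sum_eq_zero (fun i hi => if_neg (hex i hi))]
      split_ifs
      · exact h.nn ω
      · exact le_rfl
  refine le_trans ?_ h1
  have h3 : ∑ i ∈ range 8, 1 / (16 * (N : ℝ)) ≤ ∑ i ∈ range 8, Pw w (Wn S (8 * u + i)) :=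
    Finset.sum_le_sum fun i hi => h.lo _ (by rw [mem_range] at hi; omega)
  refine le_trans (le_of_eq ?_) h3
  rw [sum_const, card_range, nsmul_eq_mul]
  field_simp
  norm_num

/-- the conditional law depends on the kernel of the label only -/
theorem cw_ker (μ : Ω → ℝ) {α β : Type} (Y : Ω → α) (Z : Ω → β) (ω : Ω) (h : ∀ ω', Y ω' = Y ω ↔ Z ω' = Z ω) :
    cw μ Y ω = cw μ Z ω := by
  classical
  have h1 : pr μ Y ω = pr μ Z ω := by
    rw [pr_eq_Pw, pr_eq_Pw]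
    unfold Pw
    refine Finset.sum_congr rfl fun ω' _ => ?_
    by_cases h2 : Y ω' = Y ω
    · rw [if_pos h2, if_pos ((h ω').mp h2)]
    · rw [if_neg h2, if_neg (fun h3 => h2 ((h ω').mpr h3))]
  funext ω'
  unfold cw
  rw [h1]
  by_cases h2 : Y ω' = Y ω
  · rw [if_pos h2, if_pos ((h ω').mp h2)]
  · rw [if_neg h2, if_neg (fun h3 => h2 ((h ω').mpr h3))]

/-- probability in the conditional law -/
theorem Pw_cw (μ : Ω → ℝ) {α : Type} (Y : Ω → α) (ω : Ω) (X : Ω → Prop) :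
    Pw (cw μ Y ω) X = Pw μ (fun ω' => Y ω' = Y ω ∧ X ω') / pr μ Y ω := by
  classical
  unfold Pw
  rw [Finset.sum_div]
  refine Finset.sum_congr rfl fun ω' _ => ?_
  unfold cw
  by_cases h1 : Y ω' = Y ω <;> by_cases h2 : X ω' <;> simp [h1, h2]

omit [Fintype Ω] in
/-- the subcell of level `l + D` in the cell of level `l` -/
theorem subcell (T : Ω → ℝ) (l D : ℕ) (c : ℤ) (u : ℕ) (ω : Ω) :
    Sb (Pos T l D c) u ω ↔ cl (l + D) (T ω) = 2 ^ D * c + (u : ℤ) := by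
  unfold Sb Pos cl
  rw [Int.floor_eq_iff]
  push_cast
  constructor
  · rintro ⟨h1, h2⟩
    constructor <;> linarith
  · rintro ⟨h1, h2⟩
    constructor <;> linarith

/-- **(2.1) implies that the subcells are tubes with one slope per star** -/
theorem tubes_of_small (μ : Ω → ℝ) (hμ : ∀ ω, 0 ≤ μ ω) (hm : ∑ ω, μ ω = 1) (K : Ω → κ) (T : Ω → ℝ) (A : Ω → E)
    (p : κ → Seminorm ℝ E) (l D : ℕ) (hD : 2 ≤ D) {r0 κ1 r R θ ε : ℝ} (hκ1 : 0 < κ1) (hε : 0 < ε) (hR : 0 ≤ R)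
    (hθ0 : 0 ≤ θ) (hθ : θ * R ≤ r) (hr : 4 * (1 / 2 ^ (l + D)) * r0 ≤ r)
    (h21 : ∀ k, Pw (w2 (sv μ K T l (1 / 2 ^ (l + D)) k)) (fun x => r0 < p k (sg T A x.1 - sg T A x.2)) ≤ κ1)
    (hsl : ∀ k x, sv μ K T l (1 / 2 ^ (l + D)) k x ≠ 0 → p k (sg T A x) ≤ R) :
    ∃ σ : κ → E, (∀ k, θ * p k (σ k) ≤ r) ∧
      Pw μ (fun ω => ¬ ∃ o : E, Pw (cw μ (KC K T (l + D)) ω) (fun ω' => r < p (K ω) (A ω' - T ω' • σ (K ω) - o)) ≤
        4 * ((2 : ℝ) ^ D) ^ 2 * (κ1 / ε)) ≤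
      ε + Pw μ (fun ω => ¬ Nu (cw μ (KC K T l) ω) (Pos T l D (cl l (T ω))) (2 ^ D)) := by
  classical
  obtain ⟨h, hh⟩ : ∃ h : ℝ, h = 1 / 2 ^ (l + D) := ⟨_, rfl⟩
  have hh0 : 0 < h := by rw [hh]; positivity
  rw [← hh] at h21 hsl hr
  obtain ⟨σ, hσ1, hσ2⟩ := exists_slope μ hμ K T A p l h hR h21 hsl
  refine ⟨σ, fun k => le_trans (mul_le_mul_of_nonneg_left (hσ1 k) hθ0) hθ, ?_⟩
  have hbad := bad_nu2 μ hμ hm K T A p l hh0 hκ1.le hr σ hσ2
  set B : Ω × Ω → Prop := fun x => Rg T h x ∧ r < p (K x.1) (A x.1 - A x.2 - (T x.1 - T x.2) • σ (K x.1)) with hB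
  rw [← nu2_w2 μ hμ] at hbad
  have hmk := Pw_markov μ hμ (fun ω => Pw (w2 (cw μ (KC K T l) ω)) B) (fun ω _ =>
    Pw_nonneg _ (w2_nonneg (cw_nonneg μ _ hμ ω)) _) (div_pos hκ1 hε) hbad
  have e0 : κ1 / (κ1 / ε) = ε := by field_simp
  rw [e0] at hmk
  refine le_trans (Pw_mono μ hμ ?_) (le_trans (Pw_or μ hμ (fun ω => κ1 / ε < Pw (w2 (cw μ (KC K T l) ω)) B) (fun ω =>
    ¬ Nu (cw μ (KC K T l) ω) (Pos T l D (cl l (T ω))) (2 ^ D))) (add_le_add hmk le_rfl))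
  intro ω h0 hno
  by_contra hcon
  push Not at hcon
  obtain ⟨hδ, hNu⟩ := hcon
  apply hno
  clear hno
  set w := cw μ (KC K T l) ω with hw
  set c := cl l (T ω) with hc
  set S := Pos T l D c with hS
  have hw0 : w ω ≠ 0 := by
    rw [hw]
    unfold cw
    rw [if_pos rfl]
    exact div_ne_zero h0 (e1_pr_pos _ _ hμ ω h0).ne'
  have hN4 : 4 ≤ 2 ^ D := by
    calc 4 = 2 ^ 2 := by norm_num
      _ ≤ 2 ^ D := Nat.pow_le_pow_right (by norm_num) hD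
  -- the subcell of `ω`
  obtain ⟨hS0, hS1⟩ := hNu.rg ω hw0
  set u := ⌊S ω⌋₊ with hu
  have hu1 : (u : ℝ) ≤ S ω := Nat.floor_le hS0
  have hu2 : S ω < u + 1 := Nat.lt_floor_add_one _
  have huN : u < 2 ^ D := by
    have : (u : ℝ) < ((2 ^ D : ℕ) : ℝ) := lt_of_le_of_lt hu1 hS1
    exact_mod_cast this
  have huS : Sb S u ω := ⟨hu1, hu2⟩
  have hcell : ∀ ω', Sb S u ω' ↔ cl (l + D) (T ω') = cl (l + D) (T ω) := by
    intro ω'
    rw [subcell, (subcell T l D c u ω).mp huS]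
  obtain ⟨v, hv, huv⟩ : ∃ v < 2 ^ D, v = u + 2 ∨ u = v + 2 := by
    by_cases hcc : u + 2 < 2 ^ D
    · exact ⟨u + 2, hcc, Or.inl rfl⟩
    · exact ⟨u - 2, by omega, Or.inr (by omega)⟩
  have hNpos : (0 : ℝ) < ((2 ^ D : ℕ) : ℝ) := by positivity
  have hm0 : (0 : ℝ) < 1 / (2 * ((2 ^ D : ℕ) : ℝ)) := by positivity
  obtain ⟨ω0, k1, k2, k3⟩ := exists_sec w hNu.nn (Sb S u) (Sb S v) B (κ1 / ε) (1 / (2 * ((2 ^ D : ℕ) : ℝ))) hm0
    (nu_sub hNu hv) (le_trans (Pw_mono _ (w2_nonneg hNu.nn) (fun x _ hx => hx.2)) hδ)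
  refine ⟨A ω0 - T ω0 • σ (K ω), ?_⟩
  -- the law of the subcell
  have hlaw : cw μ (KC K T (l + D)) ω = cw w (fun ω' => cl (l + D) (T ω')) ω := by
    rw [hw, cw_cw μ hμ (KC K T l) (fun ω' => cl (l + D) (T ω')) ω h0]
    refine cw_ker μ _ _ ω fun ω' => ?_
    unfold KC
    simp only [Prod.mk.injEq]
    constructor
    · rintro ⟨a1, a2⟩
      exact ⟨a1, cl_coarse a1, a2⟩
    · rintro ⟨a1, -, a2⟩
      exact ⟨a1, a2⟩
  rw [hlaw, Pw_cw, pr_eq_Pw]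
  have hq : Pw w (fun ω' => cl (l + D) (T ω') = cl (l + D) (T ω)) = Pw w (Sb S u) := by
    congr 1
    funext ω'
    exact propext (hcell ω').symm
  rw [hq]
  have hsub := nu_sub hNu huN
  have hsub0 : 0 < Pw w (Sb S u) := lt_of_lt_of_le hm0 hsub
  rw [div_le_iff₀ hsub0]
  have hX : Pw w (fun ω' => cl (l + D) (T ω') = cl (l + D) (T ω) ∧
      r < p (K ω) (A ω' - T ω' • σ (K ω) - (A ω0 - T ω0 • σ (K ω)))) ≤ κ1 / ε / (1 / (2 * ((2 ^ D : ℕ) : ℝ))) := by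
    refine le_trans (Pw_mono w hNu.nn ?_) k3
    rintro ω' k4 ⟨k5, k6⟩
    have k7 : Sb S u ω' := (hcell ω').mpr k5
    refine ⟨k7, ?_, ?_⟩
    · -- the range
      have t1 : S ω' - S ω0 = 2 ^ (l + D) * (T ω' - T ω0) := by
        rw [hS]
        unfold Pos
        ring
      have t2 : T ω' - T ω0 = h * (S ω' - S ω0) := by
        rw [t1, hh]
        field_simp
      show h / 4 ≤ |T ω' - T ω0| ∧ |T ω' - T ω0| ≤ 4 * h
      rw [t2, abs_mul, abs_of_pos hh0]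
      have t3 : 1 ≤ |S ω' - S ω0| ∧ |S ω' - S ω0| ≤ 3 := by
        have b1 := k7.1
        have b2 := k7.2
        have b3 := k2.1
        have b4 := k2.2
        rcases huv with e | e
        · have e' : (v : ℝ) = u + 2 := by exact_mod_cast e
          rw [e'] at b3 b4
          rw [abs_of_neg (by linarith)]
          constructor <;> linarith
        · have e' : (u : ℝ) = v + 2 := by exact_mod_cast e
          rw [e'] at b1 b2
          rw [abs_of_pos (by linarith)]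
          constructor <;> linarith
      constructor <;> nlinarith [t3.1, t3.2]
    · show r < p (K ω') (A ω' - A ω0 - (T ω' - T ω0) • σ (K ω'))
      have k8 : K ω' = K ω := by
        rw [hw] at k4
        obtain ⟨a1, -⟩ := cw_ne_zero μ _ k4
        exact (Prod.mk.inj a1).2
      rw [k8]
      have k9 : A ω' - A ω0 - (T ω' - T ω0) • σ (K ω) = A ω' - T ω' • σ (K ω) - (A ω0 - T ω0 • σ (K ω)) := by
        rw [sub_smul]
        abel
      rw [k9]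
      exact k6
  refine hX.trans ?_
  have hf : κ1 / ε / (1 / (2 * ((2 ^ D : ℕ) : ℝ))) = 4 * ((2 : ℝ) ^ D) ^ 2 * (κ1 / ε) * (1 / (2 * ((2 ^ D : ℕ) : ℝ))) := by
    push_cast
    field_simp
    norm_num
  rw [hf]
  exact mul_le_mul_of_nonneg_left hsub (by positivity)

/-! ### the quantile bodies -/

theorem zero_mem_Nn {Ω' : Type} [Fintype Ω'] {b : ℕ} (w : Ω' → ℝ) (D : Ω' → Fin b → ℝ) {κ' φ : ℝ} (hκ : 0 ≤ κ') :
    (Nn w D κ' φ).Nonempty := by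
  refine ⟨0, ?_, ?_⟩
  · refine le_trans (le_of_eq ?_) hκ
    unfold Pw
    refine Finset.sum_eq_zero fun ω _ => ?_
    rw [if_neg]
    show ¬ (1 < |(0 : Fin b → ℝ) ⬝ᵥ D ω|)
    rw [zero_dotProduct, abs_zero]
    norm_num
  · intro j
    rw [Pi.zero_apply, abs_zero, zero_mul]
    exact zero_le_one

/-- the difference of the slopes of two small vectors -/
noncomputable def dl {b : ℕ} (T : Ω → ℝ) (A : Ω → Fin b → ℝ) (x : (Ω × Ω) × (Ω × Ω)) : Fin b → ℝ :=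
  sg T A x.1 - sg T A x.2

/-- the norm of the quantile body of the star `k` at level `l` -/
noncomputable def pst {b : ℕ} (μ : Ω → ℝ) (K : Ω → κ) (T : Ω → ℝ) (A : Ω → Fin b → ℝ) (l : ℕ) (h : ℝ) {κ' φ : ℝ}
    (hκ : 0 ≤ κ') (hφ : 0 < φ) (k : κ) : Seminorm ℝ (Fin b → ℝ) :=
  pBs (w2 (sv μ K T l h k)) (dl T A) κ' φ hφ (zero_mem_Nn _ _ hκ)

theorem pBs_le {Ω' : Type} [Fintype Ω'] {b : ℕ} (w : Ω' → ℝ) (D : Ω' → Fin b → ℝ) {κ' φ : ℝ} (hφ : 0 < φ)
    (hne : (Nn w D κ' φ).Nonempty) (v : Fin b → ℝ) (hv : ∀ i, |v i| ≤ 1) : pBs w D κ' φ hφ hne v ≤ b / φ := by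
  rw [pBs_le_iff]
  intro ν hν
  show |∑ j, ν j * v j| ≤ _
  refine le_trans (Finset.abs_sum_le_sum_abs _ _) ?_
  have h1 : ∀ j ∈ (univ : Finset (Fin b)), |ν j * v j| ≤ 1 / φ := by
    intro j _
    rw [abs_mul]
    have h2 : |ν j| ≤ 1 / φ := by
      rw [le_div_iff₀ hφ]
      exact hν.2 j
    calc |ν j| * |v j| ≤ 1 / φ * 1 := mul_le_mul h2 (hv j) (abs_nonneg _) (by positivity)
      _ = 1 / φ := mul_one _
  refine le_trans (Finset.sum_le_sum h1) (le_of_eq ?_)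
  rw [sum_const, card_univ, Fintype.card_fin, nsmul_eq_mul]
  ring

/-- **(2.3) of ns_notes_6d at the level of the subcells, for the quantile bodies** -/
theorem tubes_quant {b : ℕ} (hb : 0 < b) (μ : Ω → ℝ) (hμ : ∀ ω, 0 ≤ μ ω) (hm : ∑ ω, μ ω = 1) (K : Ω → κ) (T : Ω → ℝ)
    (A : Ω → Fin b → ℝ) (l D : ℕ) (hD : 2 ≤ D) {κ' φ θ ε : ℝ} (hκ : 0 < κ') (hφ : 0 < φ) (hφ1 : φ ≤ 1) (hε : 0 < ε)
    (hθ0 : 0 ≤ θ) (hθ : θ * (b / φ) ≤ 8 * b / 2 ^ (l + D))
    (hA : ∀ k x, sv μ K T l (1 / 2 ^ (l + D)) k x ≠ 0 → ∀ i, |sg T A x i| ≤ 1 / 2) :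
    ∃ σ : κ → (Fin b → ℝ), (∀ k, θ * pst μ K T A l (1 / 2 ^ (l + D)) hκ.le hφ k (σ k) ≤ 8 * b / 2 ^ (l + D)) ∧
      Pw μ (fun ω => ¬ ∃ o : Fin b → ℝ, Pw (cw μ (KC K T (l + D)) ω) (fun ω' => 8 * b / 2 ^ (l + D) <
          pst μ K T A l (1 / 2 ^ (l + D)) hκ.le hφ (K ω) (A ω' - T ω' • σ (K ω) - o)) ≤
        4 * ((2 : ℝ) ^ D) ^ 2 * (b * κ' / ε)) ≤
      ε + Pw μ (fun ω => ¬ Nu (cw μ (KC K T l) ω) (Pos T l D (cl l (T ω))) (2 ^ D)) := by
  have hb0 : (0 : ℝ) < b := by exact_mod_cast hb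
  refine tubes_of_small (r0 := 2 * b) (κ1 := b * κ') (R := b / φ) μ hμ hm K T A
    (pst μ K T A l (1 / 2 ^ (l + D)) hκ.le hφ) l D hD (by positivity) hε (by positivity) hθ0 hθ
    (le_of_eq (by ring)) ?_ ?_
  · intro k
    have h1 := BB_large (w2 (sv μ K T l (1 / 2 ^ (l + D)) k)) (w2_nonneg (sv_nonneg μ hμ K T l _ k)) (dl T A) κ' φ hκ.le
      hφ hφ1 (by
        intro x hx i
        have h2 : sv μ K T l (1 / 2 ^ (l + D)) k x.1 ≠ 0 := fun h0 => hx (by unfold w2; rw [h0, zero_mul])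
        have h3 : sv μ K T l (1 / 2 ^ (l + D)) k x.2 ≠ 0 := fun h0 => hx (by unfold w2; rw [h0, mul_zero])
        have h4 := hA k _ h2 i
        have h5 := hA k _ h3 i
        show |sg T A x.1 i - sg T A x.2 i| ≤ 1
        rw [abs_le] at h4 h5 ⊢
        constructor <;> linarith [h4.1, h4.2, h5.1, h5.2])
    refine le_trans (Pw_mono _ (w2_nonneg (sv_nonneg μ hμ K T l _ k)) ?_) h1
    intro x _ hx hcon
    have h2 : pst μ K T A l (1 / 2 ^ (l + D)) hκ.le hφ k (dl T A x) ≤ 2 * b :=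
      (pBs_le_iff _ _ _ _ hφ (zero_mem_Nn _ _ hκ.le) _ _).mpr hcon
    exact absurd hx (not_lt.mpr h2)
  · intro k x hx
    exact pBs_le _ _ hφ _ _ (fun i => (hA k x hx i).trans (by norm_num))

end Pool.Agent.Helper58.VW
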